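import Mathlib

set_option autoImplicit false

/-! # Random walks with independent steps `±1`: an elementary operator calculus -/

namespace Pool.Agent.J4.H33.LIL

noncomputable section

/-- one step of the walk, to the right with probability `q` -/
def T (q : ℝ) (F : ℤ → ℝ) (s : ℤ) : ℝ := q * F (s + 1) + (1 - q) * F (s - 1)

/-- expectation of `F (S_K) ∏_{i ≤ K} h i (S_i)` -/
def Lam (q : ℕ → ℝ) (h : ℕ → ℤ → ℝ) : ℕ → (ℤ → ℝ) → ℝ
  | 0, F => F 0
  | K + 1, F => Lam q h K (T (q K) (fun s => h (K + 1) s * F s))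

/-- the fair `n` step operator -/
def U : ℕ → (ℤ → ℝ) → (ℤ → ℝ)
  | 0, F => F
  | n + 1, F => U n (T (1 / 2) F)

lemma T_mono {q : ℝ} (h0 : 0 ≤ q) (h1 : q ≤ 1) {F G : ℤ → ℝ} (h : ∀ s, F s ≤ G s) (s : ℤ) :
    T q F s ≤ T q G s := by
  unfold T
  have h2 := mul_le_mul_of_nonneg_left (h (s + 1)) h0
  have h3 := mul_le_mul_of_nonneg_left (h (s - 1)) (sub_nonneg.2 h1)
  linarith

lemma T_half_mono {F G : ℤ → ℝ} (h : ∀ s, F s ≤ G s) (s : ℤ) : T (1 / 2) F s ≤ T (1 / 2) G s :=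
  T_mono (by norm_num) (by norm_num) h s

lemma T_const (q c : ℝ) (s : ℤ) : T q (fun _ => c) s = c := by unfold T; ring

lemma T_lin (q a b : ℝ) (F G : ℤ → ℝ) (s : ℤ) :
    T q (fun s => a * F s + b * G s) s = a * T q F s + b * T q G s := by unfold T; ring

lemma Lam_mono {q : ℕ → ℝ} {h : ℕ → ℤ → ℝ} (q0 : ∀ k, 0 ≤ q k) (q1 : ∀ k, q k ≤ 1)
    (h0 : ∀ k s, 0 ≤ h k s) (K : ℕ) : ∀ {F G : ℤ → ℝ}, (∀ s, F s ≤ G s) → Lam q h K F ≤ Lam q h K G := by
  induction K with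
  | zero => intro F G h; exact h 0
  | succ K ih =>
    intro F G hFG
    exact ih fun s => T_mono (q0 K) (q1 K) (fun s => mul_le_mul_of_nonneg_left (hFG s) (h0 _ _)) s

lemma Lam_lin (q : ℕ → ℝ) (h : ℕ → ℤ → ℝ) (a b : ℝ) (K : ℕ) : ∀ (F G : ℤ → ℝ),
    Lam q h K (fun s => a * F s + b * G s) = a * Lam q h K F + b * Lam q h K G := by
  induction K with
  | zero => intro F G; rfl
  | succ K ih =>
    intro F G
    show Lam q h K (T (q K) (fun s => h (K + 1) s * (a * F s + b * G s))) = _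
    have : T (q K) (fun s => h (K + 1) s * (a * F s + b * G s)) =
        fun s => a * T (q K) (fun s => h (K + 1) s * F s) s + b * T (q K) (fun s => h (K + 1) s * G s) s := by
      funext s; unfold T; ring
    rw [this, ih]
    rfl

lemma Lam_nonneg {q : ℕ → ℝ} {h : ℕ → ℤ → ℝ} (q0 : ∀ k, 0 ≤ q k) (q1 : ∀ k, q k ≤ 1)
    (h0 : ∀ k s, 0 ≤ h k s) (K : ℕ) {F : ℤ → ℝ} (hF : ∀ s, 0 ≤ F s) : 0 ≤ Lam q h K F := by
  have h1 := Lam_mono q0 q1 h0 K hF
  have h2 := Lam_lin q h 0 0 K (fun _ => 0) (fun _ => 0)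
  simp only [zero_mul, add_zero] at h2
  linarith

/-- a drift to the right diminishes the expectations of non-increasing functionals -/
lemma Lam_drift {q : ℕ → ℝ} {h : ℕ → ℤ → ℝ} (q0 : ∀ k, 1 / 2 ≤ q k) (q1 : ∀ k, q k ≤ 1)
    (h0 : ∀ k s, 0 ≤ h k s) (ha : ∀ k, Antitone (h k)) (K : ℕ) :
    ∀ {F : ℤ → ℝ}, (∀ s, 0 ≤ F s) → Antitone F → Lam q h K F ≤ Lam (fun _ => 1 / 2) h K F := by
  induction K with
  | zero => intro F _ _; exact le_rfl
  | succ K ih =>
    intro F hF hFa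
    have hG0 : ∀ s, 0 ≤ h (K + 1) s * F s := fun s => mul_nonneg (h0 _ _) (hF s)
    have hGa : Antitone (fun s => h (K + 1) s * F s) := by
      intro s t hst
      exact mul_le_mul (ha _ hst) (hFa hst) (hF t) (h0 _ _)
    have h1 : Lam q h (K + 1) F ≤ Lam q h K (T (1 / 2) (fun s => h (K + 1) s * F s)) := by
      show Lam q h K (T (q K) (fun s => h (K + 1) s * F s)) ≤ _
      refine Lam_mono (fun k => by linarith [q0 k]) q1 h0 K ?_
      intro s
      unfold T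
      have h2 : h (K + 1) (s + 1) * F (s + 1) ≤ h (K + 1) (s - 1) * F (s - 1) := hGa (by omega)
      nlinarith [q0 K, h2]
    refine h1.trans (ih ?_ ?_)
    · intro s; unfold T; linarith [hG0 (s + 1), hG0 (s - 1)]
    · intro s t hst
      unfold T
      have h2 := hGa (show s + 1 ≤ t + 1 by omega)
      have h3 := hGa (show s - 1 ≤ t - 1 by omega)
      simp only at h2 h3
      linarith

/-! ### The fair walk -/

lemma U_mono (n : ℕ) : ∀ {F G : ℤ → ℝ}, (∀ s, F s ≤ G s) → ∀ s, U n F s ≤ U n G s := by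
  induction n with
  | zero => intro F G h s; exact h s
  | succ n ih => intro F G h s; exact ih (T_half_mono h) s

lemma U_const (n : ℕ) (c : ℝ) : ∀ s, U n (fun _ => c) s = c := by
  induction n with
  | zero => intro s; rfl
  | succ n ih =>
    intro s
    show U n (T (1 / 2) fun _ => c) s = c
    have : T (1 / 2) (fun _ : ℤ => c) = fun _ => c := by funext t; exact T_const _ _ _
    rw [this]; exact ih s

lemma U_lin (n : ℕ) (a b : ℝ) : ∀ (F G : ℤ → ℝ) (s : ℤ),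
    U n (fun s => a * F s + b * G s) s = a * U n F s + b * U n G s := by
  induction n with
  | zero => intro F G s; rfl
  | succ n ih =>
    intro F G s
    show U n (T (1 / 2) fun s => a * F s + b * G s) s = _
    have : T (1 / 2) (fun s => a * F s + b * G s) = fun s => a * T (1 / 2) F s + b * T (1 / 2) G s := by
      funext t; exact T_lin _ _ _ _ _ _
    rw [this]; exact ih _ _ s

lemma U_shift (n : ℕ) (t : ℤ) : ∀ (F : ℤ → ℝ) (s : ℤ), U n (fun s => F (s + t)) s = U n F (s + t) := by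
  induction n with
  | zero => intro F s; rfl
  | succ n ih =>
    intro F s
    show U n (T (1 / 2) fun s => F (s + t)) s = _
    have : T (1 / 2) (fun s => F (s + t)) = fun s => T (1 / 2) F (s + t) := by
      funext u; unfold T
      show 1 / 2 * F (u + 1 + t) + (1 - 1 / 2) * F (u - 1 + t) = _
      rw [show u + 1 + t = u + t + 1 by ring, show u - 1 + t = u + t - 1 by ring]
    rw [this]; exact ih _ s

lemma U_add (m n : ℕ) : ∀ (F : ℤ → ℝ), U (m + n) F = U m (U n F) := by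
  induction n with
  | zero => intro F; rfl
  | succ n ih => intro F; exact ih _

lemma U_poly (n : ℕ) (c0 c1 c2 c3 c4 : ℝ) : ∀ t : ℤ,
    U n (fun s : ℤ => c0 + c1 * s + c2 * s ^ 2 + c3 * s ^ 3 + c4 * s ^ 4) t =
      c0 + c1 * t + c2 * (t ^ 2 + n) + c3 * (t ^ 3 + 3 * n * t) +
        c4 * (t ^ 4 + 6 * n * t ^ 2 + 3 * n ^ 2 - 2 * n) := by
  induction n generalizing c0 c1 c2 c3 c4 with
  | zero => intro t; simp [U]
  | succ n ih =>
    intro t
    show U n (T (1 / 2) _) t = _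
    have : T (1 / 2) (fun s : ℤ => c0 + c1 * s + c2 * s ^ 2 + c3 * s ^ 3 + c4 * s ^ 4) =
        fun s : ℤ => (c0 + c2 + c4) + (c1 + 3 * c3) * s + (c2 + 6 * c4) * s ^ 2 + c3 * s ^ 3 + c4 * s ^ 4 := by
      funext s; unfold T; push_cast; ring
    rw [this, ih]
    push_cast; ring

/-- The block evolution: dropping factors `h ≤ 1`. -/
lemma Lam_block (h : ℕ → ℤ → ℝ) (h0 : ∀ k s, 0 ≤ h k s) (h1 : ∀ k s, h k s ≤ 1) (N m : ℕ) :
    ∀ {F : ℤ → ℝ}, (∀ s, 0 ≤ F s) →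
      Lam (fun _ => 1 / 2) h (N + m) F ≤ Lam (fun _ => 1 / 2) h N (U m F) := by
  induction m with
  | zero => intro F _; exact le_rfl
  | succ m ih =>
    intro F hF
    have h2 : ∀ s, T (1 / 2) (fun s => h (N + m + 1) s * F s) s ≤ T (1 / 2) F s :=
      T_half_mono fun s => by nlinarith [h1 (N + m + 1) s, hF s]
    have h3 : Lam (fun _ => 1 / 2) h (N + (m + 1)) F ≤ Lam (fun _ => 1 / 2) h (N + m) (T (1 / 2) F) :=
      Lam_mono (fun _ => by norm_num) (fun _ => by norm_num) h0 _ h2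
    refine h3.trans (ih fun s => ?_)
    unfold T; linarith [hF (s + 1), hF (s - 1)]

/-- The same, keeping the last factor. -/
lemma Lam_block' (h : ℕ → ℤ → ℝ) (h0 : ∀ k s, 0 ≤ h k s) (h1 : ∀ k s, h k s ≤ 1) (N m : ℕ)
    (hm : 1 ≤ m) {F : ℤ → ℝ} (hF : ∀ s, 0 ≤ F s) :
    Lam (fun _ => 1 / 2) h (N + m) F ≤ Lam (fun _ => 1 / 2) h N (U m (fun s => h (N + m) s * F s)) := by
  obtain ⟨m, rfl⟩ : ∃ m', m = m' + 1 := ⟨m - 1, by omega⟩
  have hG : ∀ s, 0 ≤ h (N + (m + 1)) s * F s := fun s => mul_nonneg (h0 _ _) (hF s)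
  refine le_trans (b := Lam (fun _ => 1 / 2) h (N + m) (T (1 / 2) fun s => h (N + (m + 1)) s * F s)) le_rfl ?_
  refine Lam_block h h0 h1 N m fun s => ?_
  unfold T
  have a := hG (s + 1)
  have b := hG (s - 1)
  linarith

/-- the indicator of `[x, ∞)` -/
def I (x : ℝ) (s : ℤ) : ℝ := if x ≤ s then 1 else 0

lemma I_nonneg (x : ℝ) (s : ℤ) : 0 ≤ I x s := by unfold I; split_ifs <;> norm_num
lemma I_le_one (x : ℝ) (s : ℤ) : I x s ≤ 1 := by unfold I; split_ifs <;> norm_num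

/-- the probability that the sum of `n` fair signs is at least `√n / 4` is at least `1 / 18` -/
lemma U_sub (n : ℕ) (s : ℤ) : 1 / 18 ≤ U n (I (s + √n / 4)) s := by
  rcases Nat.eq_zero_or_pos n with h | hn
  · subst h; simp [U, I]; norm_num
  have hn1 : (1 : ℝ) ≤ n := by exact_mod_cast hn
  set r : ℝ := √n with hr
  have hr0 : 0 < r := Real.sqrt_pos.2 (by linarith)
  have hr2 : r ^ 2 = n := Real.sq_sqrt (by linarith)
  have e1 : U n (I (s + r / 4)) s = U n (I (r / 4)) 0 := by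
    have h1 := U_shift n s (I (s + r / 4)) 0
    rw [zero_add] at h1
    rw [← h1]
    congr 1
    funext t
    unfold I
    have : (s : ℝ) + r / 4 ≤ ((t + s : ℤ) : ℝ) ↔ r / 4 ≤ (t : ℝ) := by
      push_cast
      constructor <;> intro h <;> linarith
    simp only [this]
  rw [e1]
  -- g u = -u^4 + 2.25 u^3 + 6.5 u^2 + 2.25 u - 1
  have key : ∀ u : ℝ, (-1 + 9 / 4 * u + 13 / 2 * u ^ 2 + 9 / 4 * u ^ 3 - u ^ 4) ≤ 45 * (if 1 / 4 ≤ u then 1 else 0) := by
    intro u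
    have e : (-1 + 9 / 4 * u + 13 / 2 * u ^ 2 + 9 / 4 * u ^ 3 - u ^ 4) = (u - 1 / 4) * (u + 1) ^ 2 * (4 - u) := by ring
    split_ifs with h
    · nlinarith [sq_nonneg (u - 289 / 100), sq_nonneg (u * (u - 289 / 100)), sq_nonneg (u ^ 2 - 835 / 100), mul_nonneg (sub_nonneg.2 h) (sq_nonneg (u - 289 / 100))]
    · rw [e]
      push Not at h
      have h2 : 0 ≤ (u + 1) ^ 2 := sq_nonneg _
      have h3 : 0 ≤ (1 / 4 - u) * (u + 1) ^ 2 * (4 - u) := by
        apply mul_nonneg (mul_nonneg (by linarith) h2) (by linarith)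
      linarith
  have h1 : ∀ t : ℤ, (-1) + (9 / 4 / r) * t + (13 / 2 / r ^ 2) * t ^ 2 + (9 / 4 / r ^ 3) * t ^ 3 + (-1 / r ^ 4) * t ^ 4 ≤
      45 * I (r / 4) t + 0 * I (r / 4) t := by
    intro t
    have h2 := key (t / r)
    have e2 : (1 / 4 ≤ (t : ℝ) / r) ↔ r / 4 ≤ (t : ℝ) := by
      rw [le_div_iff₀ hr0]
      constructor <;> intro h <;> linarith
    have e3 : (if 1 / 4 ≤ (t : ℝ) / r then (1 : ℝ) else 0) = I (r / 4) t := by
      unfold I; simp only [e2]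
    rw [e3] at h2
    have e4 : (-1) + (9 / 4 / r) * (t : ℝ) + (13 / 2 / r ^ 2) * t ^ 2 + (9 / 4 / r ^ 3) * t ^ 3 + (-1 / r ^ 4) * t ^ 4 =
        (-1 + 9 / 4 * ((t : ℝ) / r) + 13 / 2 * ((t : ℝ) / r) ^ 2 + 9 / 4 * ((t : ℝ) / r) ^ 3 - ((t : ℝ) / r) ^ 4) := by
      field_simp
      ring
    rw [e4]
    linarith
  have h2 := U_mono n h1 0
  rw [U_poly, U_lin] at h2
  have e5 : (-1 : ℝ) + 9 / 4 / r * ((0 : ℤ) : ℝ) + 13 / 2 / r ^ 2 * (((0 : ℤ) : ℝ) ^ 2 + (n : ℝ)) + 9 / 4 / r ^ 3 * (((0 : ℤ) : ℝ) ^ 3 + 3 * (n : ℝ) * ((0 : ℤ) : ℝ)) +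
    -1 / r ^ 4 * (((0 : ℤ) : ℝ) ^ 4 + 6 * (n : ℝ) * ((0 : ℤ) : ℝ) ^ 2 + 3 * (n : ℝ) ^ 2 - 2 * n) = 5 / 2 + 2 / n := by
    have : r ^ 4 = (n : ℝ) ^ 2 := by rw [← hr2]; ring
    rw [this, hr2]
    push_cast
    field_simp
    ring
  rw [e5] at h2
  have h3 : 0 < 2 / (n : ℝ) := by positivity
  linarith

/-- the probability that the sum of `L n` fair signs is at least `L √n / 4` is at least `18 ^ (- L)` -/
lemma U_blocks (n L : ℕ) : ∀ s : ℤ, (1 / 18 : ℝ) ^ L ≤ U (L * n) (I (s + L * (√n / 4))) s := by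
  induction L with
  | zero => intro s; simp [U, I]
  | succ L ih =>
    intro s
    rw [show (L + 1) * n = n + L * n by ring, U_add]
    set x : ℝ := √n / 4 with hx
    have h1 : ∀ t : ℤ, (1 / 18 : ℝ) ^ L * I (s + x) t + 0 * I (s + x) t ≤ U (L * n) (I (s + (L + 1 : ℕ) * x)) t := by
      intro t
      rw [show I (s + x) t = if (s : ℝ) + x ≤ t then 1 else 0 from rfl]
      split_ifs with h
      · have h2 := ih t
        have h3 : ∀ u : ℤ, I (t + L * x) u ≤ I (s + (L + 1 : ℕ) * x) u := by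
          intro u
          unfold I
          split_ifs with h4 h5
          · exact le_rfl
          · exfalso; apply h5; push_cast; linarith
          · norm_num
          · exact le_rfl
        have h4 := U_mono (L * n) h3 t
        have h5 : (1 / 18 : ℝ) ^ L * 1 + 0 * 1 = (1 / 18 : ℝ) ^ L := by ring
        rw [h5]
        exact h2.trans h4
      · have h2 : ∀ u : ℤ, (0 : ℝ) ≤ I (s + (L + 1 : ℕ) * x) u := fun u => I_nonneg _ _
        have h3 := U_mono (L * n) h2 t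
        rw [U_const] at h3
        rw [mul_zero, mul_zero, add_zero]
        exact h3
    have h2 := U_mono n h1 s
    rw [U_lin] at h2
    have h3 := U_sub n s
    have h4 : (0 : ℝ) ≤ (1 / 18 : ℝ) ^ L := by positivity
    have h5 : (1 / 18 : ℝ) ^ (L + 1) = (1 / 18 : ℝ) ^ L * (1 / 18) := pow_succ _ _
    rw [h5]
    nlinarith

/-- Chebyshev's inequality for the fair walk -/
lemma Lam_cheb (h : ℕ → ℤ → ℝ) (h0 : ∀ k s, 0 ≤ h k s) (h1 : ∀ k s, h k s ≤ 1) (N : ℕ) (μ : ℝ) (hμ : 0 < μ) :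
    Lam (fun _ => 1 / 2) h N (fun s => 1 - I (-μ) s) ≤ N / μ ^ 2 := by
  have h2 : Lam (fun _ => 1 / 2) h (0 + N) (fun s => 1 - I (-μ) s) ≤ Lam (fun _ => 1 / 2) h 0 (U N (fun s => 1 - I (-μ) s)) :=
    Lam_block h h0 h1 0 N fun s => by linarith [I_le_one (-μ) s]
  rw [zero_add] at h2
  refine h2.trans ?_
  show U N (fun s => 1 - I (-μ) s) 0 ≤ _
  have h3 : ∀ s : ℤ, 1 - I (-μ) s ≤ 0 + 0 * s + (1 / μ ^ 2) * s ^ 2 + 0 * s ^ 3 + 0 * s ^ 4 := by
    intro s
    unfold I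
    split_ifs with h
    · have : 0 ≤ 1 / μ ^ 2 * (s : ℝ) ^ 2 := by positivity
      linarith
    · push Not at h
      have h4 : μ ^ 2 ≤ (s : ℝ) ^ 2 := by nlinarith
      have h5 : 1 ≤ 1 / μ ^ 2 * (s : ℝ) ^ 2 := by
        rw [one_div, ← div_eq_inv_mul, le_div_iff₀ (by positivity)]; linarith
      linarith
  have h4 := U_mono N h3 0
  rw [U_poly] at h4
  refine h4.trans (le_of_eq ?_)
  push_cast
  field_simp
  ring

end

end Pool.Agent.J4.H33.LIL
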