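import Mathlib
import Pool.Agent.J4.H33.LIL.Ops

set_option autoImplicit false

/-! # The lower half of the law of the iterated logarithm, uniformly for all walks with nonnegative drift -/

namespace Pool.Agent.J4.H33.LIL

noncomputable section

/-- the threshold `√(K log log K) / 40` -/
def thr (K : ℕ) : ℝ := √(K * Real.log (Real.log K)) / 40

/-- the indicator of no success at time `K` -/
def hh (K₀ K : ℕ) (s : ℤ) : ℝ := if K₀ ≤ K then 1 - I (thr K) s else 1

lemma hh_nonneg (K₀ K : ℕ) (s : ℤ) : 0 ≤ hh K₀ K s := by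
  unfold hh; split_ifs
  · linarith [I_le_one (thr K) s]
  · norm_num

lemma hh_le_one (K₀ K : ℕ) (s : ℤ) : hh K₀ K s ≤ 1 := by
  unfold hh; split_ifs
  · linarith [I_nonneg (thr K) s]
  · norm_num

lemma hh_anti (K₀ K : ℕ) : Antitone (hh K₀ K) := by
  intro s t hst
  unfold hh
  split_ifs
  · unfold I
    have : (s : ℝ) ≤ t := by exact_mod_cast hst
    split_ifs with h1 h2 h2
    · exact le_rfl
    · norm_num
    · exact absurd (h2.trans this) h1
    · exact le_rfl
  · exact le_rfl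

lemma log18 : Real.log 18 ≤ 2.9 := by
  have h : (18 : ℝ) ≤ Real.exp 2.9 := by
    have h1 : Real.exp 2.9 = Real.exp 1 ^ (29 / 10 : ℝ) := by
      rw [← Real.exp_mul]; norm_num
    have h2 : (2.7182818283 : ℝ) ≤ Real.exp 1 := Real.exp_one_gt_d9.le
    have h3 : (18 : ℝ) ≤ (2.7182818283 : ℝ) ^ (29 / 10 : ℝ) := by
      have h4 : ((18 : ℝ) ^ 10) ^ (1 / 10 : ℝ) ≤ ((2.7182818283 : ℝ) ^ 29) ^ (1 / 10 : ℝ) := by
        apply Real.rpow_le_rpow (by positivity) (by norm_num) (by norm_num)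
      rw [← Real.rpow_natCast, ← Real.rpow_natCast, ← Real.rpow_mul (by norm_num), ← Real.rpow_mul (by norm_num)] at h4
      norm_num at h4 ⊢
      exact h4
    rw [h1]
    exact h3.trans (Real.rpow_le_rpow (by norm_num) h2 (by norm_num))
  rw [← Real.log_exp 2.9]
  exact Real.log_le_log (by norm_num) h

/-- one dyadic step -/
lemma step (K₀ j : ℕ) (hj : K₀ ≤ 2 ^ j) (hL : Nat.log 18 (j + 18) ≤ 2 ^ j) :
    Lam (fun _ => 1 / 2) (hh K₀) (2 ^ (j + 1)) (fun _ => 1) ≤
      (1 - 1 / (j + 18)) * Lam (fun _ => 1 / 2) (hh K₀) (2 ^ j) (fun _ => 1) +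
        1 / (j + 18) * (128 / Nat.log 18 (j + 18)) := by
  set L : ℕ := Nat.log 18 (j + 18) with hLdef
  set N : ℕ := 2 ^ j with hN
  have hL1 : 1 ≤ L := Nat.log_pos (by norm_num) (by omega)
  set n : ℕ := N / L with hn
  set m : ℕ := L * n with hm
  have hmN : m ≤ N := Nat.mul_div_le N L
  have hn1 : 1 ≤ n := Nat.div_pos hL (by omega)
  have hm1 : 1 ≤ m := Nat.mul_pos hL1 hn1
  have hLr : (1 : ℝ) ≤ L := by exact_mod_cast hL1
  have hnr : (1 : ℝ) ≤ n := by exact_mod_cast hn1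
  have hNr : (1 : ℝ) ≤ N := by exact_mod_cast Nat.one_le_two_pow
  -- L n ≥ N / 2
  have hLn : (N : ℝ) ≤ 2 * (L * n) := by
    have h1 : N < L * (n + 1) := Nat.lt_mul_div_succ N (by omega)
    have h2 : N ≤ 2 * (L * n) := by nlinarith
    exact_mod_cast h2
  set μ : ℝ := L * (√n / 8) with hμ
  have hsn : 0 < √(n : ℝ) := Real.sqrt_pos.2 (by linarith)
  have hμ0 : 0 < μ := by positivity
  have hμ2 : μ ^ 2 = L ^ 2 * n / 64 := by
    rw [hμ, mul_pow, div_pow, Real.sq_sqrt (by linarith)]; ring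
  -- the probability
  have hp : (1 : ℝ) / (j + 18) ≤ (1 / 18) ^ L := by
    have h1 : 18 ^ L ≤ j + 18 := Nat.pow_log_le_self 18 (by omega)
    have h2 : (18 : ℝ) ^ L ≤ j + 18 := by exact_mod_cast h1
    rw [one_div_pow]
    exact one_div_le_one_div_of_le (by positivity) h2
  -- the threshold
  have hthr : thr (N + m) ≤ μ := by
    unfold thr
    have hK : ((N + m : ℕ) : ℝ) ≤ 2 * N := by
      have : N + m ≤ 2 * N := by omega
      exact_mod_cast this
    have hK1 : (2 : ℝ) ≤ ((N + m : ℕ) : ℝ) := by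
      have : 2 ≤ N + m := by have := Nat.one_le_two_pow (n := j); omega
      exact_mod_cast this
    have hlogK : Real.log ((N + m : ℕ) : ℝ) ≤ j + 1 := by
      have h1 : Real.log ((N + m : ℕ) : ℝ) ≤ Real.log (2 * N) := Real.log_le_log (by linarith) hK
      have h2 : (2 : ℝ) * N = 2 ^ (j + 1) := by rw [hN]; push_cast; ring
      rw [h2, Real.log_pow, show ((j + 1 : ℕ) : ℝ) = j + 1 by push_cast; ring] at h1
      have h3 : Real.log 2 ≤ 1 := by linarith [Real.log_two_lt_d9]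
      have h4 : (0 : ℝ) ≤ j := Nat.cast_nonneg j
      nlinarith
    have hlogK0 : 0 < Real.log ((N + m : ℕ) : ℝ) := Real.log_pos (by linarith)
    have hll : Real.log (Real.log ((N + m : ℕ) : ℝ)) ≤ 5.8 * L := by
      have h1 : Real.log (Real.log ((N + m : ℕ) : ℝ)) ≤ Real.log (j + 18) := by
        apply Real.log_le_log hlogK0
        linarith
      have h2 : j + 18 < 18 ^ (L + 1) := Nat.lt_pow_succ_log_self (by norm_num) _
      have h3 : Real.log (j + 18) ≤ Real.log ((18 : ℝ) ^ (L + 1)) := by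
        apply Real.log_le_log (by positivity)
        have : ((j + 18 : ℕ) : ℝ) ≤ ((18 ^ (L + 1) : ℕ) : ℝ) := by exact_mod_cast h2.le
        push_cast at this
        exact this
      rw [Real.log_pow] at h3
      have h4 := log18
      have h5 : 0 ≤ Real.log 18 := Real.log_nonneg (by norm_num)
      push_cast at h3
      nlinarith
    have h1 : ((N + m : ℕ) : ℝ) * Real.log (Real.log ((N + m : ℕ) : ℝ)) ≤ (40 * μ) ^ 2 := by
      have h2 : ((N + m : ℕ) : ℝ) * Real.log (Real.log ((N + m : ℕ) : ℝ)) ≤ ((N + m : ℕ) : ℝ) * (5.8 * L) :=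
        mul_le_mul_of_nonneg_left hll (by linarith)
      have h3 : ((N + m : ℕ) : ℝ) * (5.8 * L) ≤ (2 * N) * (5.8 * L) :=
        mul_le_mul_of_nonneg_right hK (by positivity)
      have h4 : (40 * μ) ^ 2 = 25 * L * (L * n) := by
        rw [mul_pow, hμ2]; ring
      rw [h4]
      nlinarith
    have h2 : √(((N + m : ℕ) : ℝ) * Real.log (Real.log ((N + m : ℕ) : ℝ))) ≤ 40 * μ := by
      rw [show (40 * μ) = √((40 * μ) ^ 2) from (Real.sqrt_sq (by positivity)).symm]
      exact Real.sqrt_le_sqrt h1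
    linarith
  -- the recursion
  have hq : ∀ k : ℕ, (0 : ℝ) ≤ (fun _ : ℕ => (1 / 2 : ℝ)) k := fun _ => by norm_num
  have hq' : ∀ k : ℕ, (fun _ : ℕ => (1 / 2 : ℝ)) k ≤ 1 := fun _ => by norm_num
  have e1 : 2 ^ (j + 1) = (N + m) + (N - m) := by rw [hN]; rw [hN] at hmN; rw [pow_succ]; omega
  have s1 : Lam (fun _ => 1 / 2) (hh K₀) (2 ^ (j + 1)) (fun _ => 1) ≤
      Lam (fun _ => 1 / 2) (hh K₀) (N + m) (fun _ => 1) := by
    rw [e1]
    refine (Lam_block (hh K₀) (hh_nonneg K₀) (hh_le_one K₀) (N + m) (N - m) (fun _ => by norm_num)).trans (le_of_eq ?_)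
    congr 1
    funext s
    exact U_const _ _ _
  have s2 : Lam (fun _ => 1 / 2) (hh K₀) (N + m) (fun _ => 1) ≤
      Lam (fun _ => 1 / 2) (hh K₀) N (U m (fun s => hh K₀ (N + m) s * 1)) :=
    Lam_block' (hh K₀) (hh_nonneg K₀) (hh_le_one K₀) N m hm1 fun _ => by norm_num
  have s3 : ∀ s, U m (fun s => hh K₀ (N + m) s * 1) s ≤
      (1 - 1 / (j + 18)) * (fun _ : ℤ => (1 : ℝ)) s + 1 / (j + 18) * (fun s => 1 - I (-μ) s) s := by
    intro s
    have h1 : ∀ t : ℤ, hh K₀ (N + m) t * 1 ≤ 1 * (fun _ : ℤ => (1 : ℝ)) t + (-1) * I μ t := by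
      intro t
      unfold hh
      rw [if_pos (by omega)]
      unfold I
      split_ifs with h2 h3 h3
      · norm_num
      · norm_num
      · exact absurd (hthr.trans h3) h2
      · norm_num
    have h2 := U_mono m h1 s
    rw [U_lin, U_const] at h2
    refine h2.trans ?_
    have hj0 : (0 : ℝ) < 1 / ((j : ℝ) + 18) := by positivity
    show 1 * 1 + -1 * U m (I μ) s ≤ (1 - 1 / (j + 18)) * 1 + 1 / (j + 18) * (1 - I (-μ) s)
    by_cases hs : -μ ≤ s
    · have h3 : I (-μ) s = 1 := by unfold I; rw [if_pos hs]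
      rw [h3]
      have h4 : (1 / 18 : ℝ) ^ L ≤ U m (I μ) s := by
        refine (U_blocks n L s).trans (U_mono _ ?_ s)
        intro t
        unfold I
        split_ifs with h5 h6
        · exact le_rfl
        · exfalso; apply h6
          have : L * (√(n : ℝ) / 4) = 2 * μ := by rw [hμ]; ring
          linarith
        · norm_num
        · exact le_rfl
      linarith
    · have h3 : I (-μ) s = 0 := by unfold I; rw [if_neg hs]
      rw [h3]
      have h4 : 0 ≤ U m (I μ) s := by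
        have := U_mono m (F := fun _ => 0) (G := I μ) (fun t => I_nonneg _ _) s
        rwa [U_const] at this
      linarith
  have s4 := Lam_mono hq hq' (hh_nonneg K₀) N s3
  rw [Lam_lin] at s4
  have s5 := Lam_cheb (hh K₀) (hh_nonneg K₀) (hh_le_one K₀) N μ hμ0
  have s6 : (N : ℝ) / μ ^ 2 ≤ 128 / L := by
    rw [hμ2, div_le_div_iff₀ (by positivity) (by positivity)]
    nlinarith
  have hj0 : (0 : ℝ) ≤ 1 / ((j : ℝ) + 18) := by positivity
  have s7 := mul_le_mul_of_nonneg_left (s5.trans s6) hj0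
  linarith

/-- **Law of the iterated logarithm, lower half, uniform in the walk.** -/
theorem lil (K₀ : ℕ) (η : ℝ) (hη : 0 < η) : ∃ K₁ : ℕ, K₀ ≤ K₁ ∧ ∀ q : ℕ → ℝ, (∀ k, 1 / 2 ≤ q k) → (∀ k, q k ≤ 1) →
    Lam q (hh K₀) K₁ (fun _ => 1) ≤ η := by
  -- choose the start
  have hlim : Filter.Tendsto (fun j : ℕ => (Nat.log 18 (j + 18) : ℝ)) Filter.atTop Filter.atTop := by
    rw [tendsto_natCast_atTop_iff]
    apply Filter.tendsto_atTop.2
    intro b
    filter_upwards [Filter.eventually_ge_atTop (18 ^ b)] with j hj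
    rw [Nat.le_log_iff_pow_le (by norm_num) (by omega)]
    omega
  have h1 : ∀ᶠ j : ℕ in Filter.atTop, 256 / η ≤ (Nat.log 18 (j + 18) : ℝ) := hlim.eventually_ge_atTop _
  have h2 : ∀ j : ℕ, Nat.log 18 (j + 18) ≤ 2 ^ j := by
    intro j
    have h3 : j + 18 < 18 ^ (2 ^ j + 1) := by
      have h4 : j < 2 ^ j := Nat.lt_two_pow_self
      have h5 : 2 ^ j < 18 ^ (2 ^ j) := Nat.lt_pow_self (by norm_num)
      rw [pow_succ]
      have h6 : 1 ≤ 18 ^ (2 ^ j) := Nat.one_le_pow _ _ (by norm_num)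
      omega
    exact Nat.lt_succ_iff.1 (Nat.log_lt_of_lt_pow (by omega) h3)
  obtain ⟨j₀, hj₀⟩ := Filter.eventually_atTop.1 (h1.and (Filter.eventually_ge_atTop K₀))
  have hK : ∀ j, j₀ ≤ j → K₀ ≤ 2 ^ j := fun j hj => ((hj₀ j hj).2).trans Nat.lt_two_pow_self.le
  set a : ℕ → ℝ := fun j => Lam (fun _ => 1 / 2) (hh K₀) (2 ^ j) (fun _ => 1) with ha
  have ha1 : a j₀ ≤ 1 := by
    have h3 := Lam_block (hh K₀) (hh_nonneg K₀) (hh_le_one K₀) 0 (2 ^ j₀) (F := fun _ => 1) (fun _ => by norm_num)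
    rw [zero_add] at h3
    refine h3.trans (le_of_eq ?_)
    show U (2 ^ j₀) (fun _ => 1) 0 = 1
    exact U_const _ _ _
  have hrec : ∀ j, j₀ ≤ j → (j + 17 : ℝ) * (a j - η / 2) ≤ j₀ + 17 := by
    intro j hj
    induction j, hj using Nat.le_induction with
    | base =>
      have : (0 : ℝ) ≤ j₀ := Nat.cast_nonneg _
      nlinarith
    | succ j hj ih =>
      have h3 := step K₀ j (hK j hj) (h2 j)
      have h4 := (hj₀ j hj).1
      set L : ℝ := (Nat.log 18 (j + 18) : ℝ) with hL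
      have hLpos : 0 < L := lt_of_lt_of_le (by positivity) h4
      have h5 : 128 / L ≤ η / 2 := by
        rw [div_le_iff₀ hη] at h4
        rw [div_le_div_iff₀ hLpos (by norm_num)]
        linarith
      have hj0 : (0 : ℝ) < (j : ℝ) + 18 := by positivity
      have h6 : a (j + 1) - η / 2 ≤ (1 - 1 / (j + 18)) * (a j - η / 2) := by
        have h7 : 1 / ((j : ℝ) + 18) * (128 / L) ≤ 1 / ((j : ℝ) + 18) * (η / 2) :=
          mul_le_mul_of_nonneg_left h5 (by positivity)
        have h8 : a (j + 1) ≤ (1 - 1 / (j + 18)) * a j + 1 / (j + 18) * (128 / L) := h3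
        linarith
      have h9 : ((j : ℝ) + 18) * ((1 - 1 / (j + 18)) * (a j - η / 2)) = (j + 17) * (a j - η / 2) := by
        field_simp
        ring
      have h10 := mul_le_mul_of_nonneg_left h6 hj0.le
      rw [h9] at h10
      push_cast
      have e : (j : ℝ) + 1 + 17 = j + 18 := by ring
      rw [e]
      exact h10.trans ih
  obtain ⟨J, hJ⟩ : ∃ J : ℕ, (j₀ + 17 : ℝ) * (2 / η) ≤ J := exists_nat_ge _
  have hJJ : j₀ ≤ J + j₀ := by omega
  refine ⟨2 ^ (J + j₀), hK _ hJJ, ?_⟩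
  intro q q0 q1
  have h3 := Lam_drift q0 q1 (hh_nonneg K₀) (hh_anti K₀) (2 ^ (J + j₀)) (F := fun _ => 1) (fun _ => by norm_num)
    (fun _ _ _ => le_rfl)
  refine h3.trans ?_
  have h4 := hrec (J + j₀) hJJ
  have h5 : (0 : ℝ) ≤ j₀ := Nat.cast_nonneg _
  have h6 : (0 : ℝ) ≤ J := Nat.cast_nonneg _
  by_contra hcon
  push Not at hcon
  have h7 : η / 2 ≤ a (J + j₀) - η / 2 := by
    have : η < a (J + j₀) := hcon
    linarith
  have h8 : ((J + j₀ : ℕ) + 17 : ℝ) * (η / 2) ≤ j₀ + 17 := by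
    refine le_trans ?_ h4
    apply mul_le_mul_of_nonneg_left h7
    positivity
  have h9 : (j₀ + 17 : ℝ) ≤ J * (η / 2) := by
    have : (j₀ + 17 : ℝ) * (2 / η) * (η / 2) ≤ J * (η / 2) := mul_le_mul_of_nonneg_right hJ (by positivity)
    have e : (j₀ + 17 : ℝ) * (2 / η) * (η / 2) = j₀ + 17 := by field_simp
    linarith
  push_cast at h8
  nlinarith

end

end Pool.Agent.J4.H33.LIL
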