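import Mathlib
import Pool.Agent.J4.H33.LIL.Main

set_option autoImplicit false

/-! # Residues modulo products of primes as random walks -/

namespace Pool.Agent.J4.H33.LIL

open Finset

noncomputable section

/-! ### Abstract sampling schemes -/

/-- A scheme of residues with a Chinese remainder theorem. -/
structure Scheme (α : Type*) where
  R : ℕ → Finset α
  r : ℕ → Finset α
  f : ℕ → α → α
  g : ℕ → α → α
  one : (R 0).card = 1
  pos : ∀ k, 0 < (r k).card
  crt : ∀ (K : ℕ) (Φ : α → α → ℝ), ∑ D ∈ R (K + 1), Φ (f K D) (g K D) = ∑ a ∈ R K, ∑ b ∈ r K, Φ a b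

variable {α : Type*}

/-- the walk -/
def S (y : ℕ → α → ℤ) (K : ℕ) (D : α) : ℤ := ∑ k ∈ range K, y k D

/-- the weight of no success -/
def W (K₀ : ℕ) (y : ℕ → α → ℤ) (K : ℕ) (D : α) : ℝ := ∏ i ∈ range K, hh K₀ (i + 1) (S y (i + 1) D)

/-- the probability of a step to the right -/
def qq (σ : Scheme α) (y : ℕ → α → ℤ) (k : ℕ) : ℝ := ((σ.r k).filter (fun b => y k b = 1)).card / (σ.r k).card

lemma card_eq (σ : Scheme α) (K : ℕ) : (((σ.R K).card : ℕ) : ℝ) = ∏ k ∈ range K, ((σ.r k).card : ℝ) := by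
  induction K with
  | zero => simp [σ.one]
  | succ K ih =>
    have h := σ.crt K (fun _ _ => 1)
    simp only [sum_const, nsmul_eq_mul, mul_one] at h
    rw [prod_range_succ, ← ih, h]

lemma walk (σ : Scheme α) (y : ℕ → α → ℤ) (hy : ∀ k D, y k D = 1 ∨ y k D = -1)
    (hf : ∀ k K D, k < K → y k (σ.f K D) = y k D) (hg : ∀ k D, y k (σ.g k D) = y k D) (K₀ K : ℕ) :
    ∀ F : ℤ → ℝ, ∑ D ∈ σ.R K, W K₀ y K D * F (S y K D) = (σ.R K).card * Lam (qq σ y) (hh K₀) K F := by
  induction K with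
  | zero =>
    intro F
    simp [W, S, Lam]
  | succ K ih =>
    intro F
    have hSf : ∀ i, i ≤ K → ∀ D, S y i (σ.f K D) = S y i D := by
      intro i hi D
      unfold S
      refine sum_congr rfl fun k hk => hf k K D ?_
      rw [mem_range] at hk; omega
    have hWf : ∀ D, W K₀ y K (σ.f K D) = W K₀ y K D := by
      intro D
      unfold W
      refine prod_congr rfl fun i hi => ?_
      rw [mem_range] at hi
      rw [hSf (i + 1) (by omega)]
    set G : ℤ → ℝ := fun s => hh K₀ (K + 1) s * F s with hG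
    have e1 : ∑ D ∈ σ.R (K + 1), W K₀ y (K + 1) D * F (S y (K + 1) D) =
        ∑ D ∈ σ.R (K + 1), (fun a b => W K₀ y K a * G (S y K a + y K b)) (σ.f K D) (σ.g K D) := by
      refine sum_congr rfl fun D _ => ?_
      show _ = W K₀ y K (σ.f K D) * G (S y K (σ.f K D) + y K (σ.g K D))
      rw [hWf, hSf K le_rfl, hg]
      unfold W S
      rw [prod_range_succ, ← sum_range_succ]
      rw [hG]
      ring
    rw [e1]
    refine (σ.crt K (fun a b => W K₀ y K a * G (S y K a + y K b))).trans ?_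
    have e2 : ∀ a, ∑ b ∈ σ.r K, W K₀ y K a * G (S y K a + y K b) =
        (σ.r K).card * (W K₀ y K a * T (qq σ y K) G (S y K a)) := by
      intro a
      rw [← mul_sum]
      have h1 : ∑ b ∈ σ.r K, G (S y K a + y K b) =
          ((σ.r K).filter (fun b => y K b = 1)).card * G (S y K a + 1) +
          ((σ.r K).filter (fun b => ¬ y K b = 1)).card * G (S y K a - 1) := by
        rw [← sum_filter_add_sum_filter_not (σ.r K) (fun b => y K b = 1)]
        congr 1
        · rw [sum_congr rfl (g := fun _ => G (S y K a + 1)) (fun b hb => by rw [(mem_filter.1 hb).2])]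
          simp
        · rw [sum_congr rfl (g := fun _ => G (S y K a - 1)) (fun b hb => by
            have := (hy K b).resolve_left (mem_filter.1 hb).2
            rw [this]; rfl)]
          simp
      have h2 : (((σ.r K).filter (fun b => y K b = 1)).card : ℝ) + ((σ.r K).filter (fun b => ¬ y K b = 1)).card =
          (σ.r K).card := by
        exact_mod_cast card_filter_add_card_filter_not (s := σ.r K) (fun b => y K b = 1)
      have h3 : ((σ.r K).card : ℝ) ≠ 0 := by exact_mod_cast (σ.pos K).ne'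
      rw [h1]
      unfold T qq
      have h4 : (((σ.r K).filter (fun b => ¬ y K b = 1)).card : ℝ) =
          (σ.r K).card - ((σ.r K).filter (fun b => y K b = 1)).card := by linarith
      rw [h4]
      field_simp
    rw [sum_congr rfl fun a _ => e2 a, ← mul_sum, ih (T (qq σ y K) G)]
    rw [card_eq σ (K + 1), card_eq σ K, prod_range_succ]
    show _ = _ * Lam (qq σ y) (hh K₀) K (T (qq σ y K) (fun s => hh K₀ (K + 1) s * F s))
    ring

open Classical in
/-- few residues without success -/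
theorem few (σ : Scheme α) (y : ℕ → α → ℤ) (hy : ∀ k D, y k D = 1 ∨ y k D = -1)
    (hf : ∀ k K D, k < K → y k (σ.f K D) = y k D) (hg : ∀ k D, y k (σ.g k D) = y k D)
    (hq : ∀ k, (σ.r k).card ≤ 2 * ((σ.r k).filter (fun b => y k b = 1)).card) (K₀ K₁ : ℕ) (η : ℝ)
    (hK₁ : ∀ q : ℕ → ℝ, (∀ k, 1 / 2 ≤ q k) → (∀ k, q k ≤ 1) → Lam q (hh K₀) K₁ (fun _ => 1) ≤ η) :
    (((σ.R K₁).filter (fun D => ∀ K, 1 ≤ K → K₀ ≤ K → K ≤ K₁ → (S y K D : ℝ) < thr K)).card : ℝ) ≤
      η * (σ.R K₁).card := by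
  have h1 := walk σ y hy hf hg K₀ K₁ (fun _ => 1)
  have h2 : Lam (qq σ y) (hh K₀) K₁ (fun _ => 1) ≤ η := by
    apply hK₁
    · intro k
      unfold qq
      have h3 : (0 : ℝ) < (σ.r k).card := by exact_mod_cast σ.pos k
      rw [div_le_div_iff₀ (by norm_num) h3]
      have : ((σ.r k).card : ℝ) ≤ 2 * ((σ.r k).filter (fun b => y k b = 1)).card := by exact_mod_cast hq k
      linarith
    · intro k
      unfold qq
      apply div_le_one_of_le₀ _ (by positivity)
      exact_mod_cast card_filter_le _ _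
  have h3 : (((σ.R K₁).filter (fun D => ∀ K, 1 ≤ K → K₀ ≤ K → K ≤ K₁ → (S y K D : ℝ) < thr K)).card : ℝ) ≤
      ∑ D ∈ σ.R K₁, W K₀ y K₁ D * (fun _ => (1 : ℝ)) (S y K₁ D) := by
    have h4 : (((σ.R K₁).filter (fun D => ∀ K, 1 ≤ K → K₀ ≤ K → K ≤ K₁ → (S y K D : ℝ) < thr K)).card : ℝ) =
        ∑ D ∈ (σ.R K₁).filter (fun D => ∀ K, 1 ≤ K → K₀ ≤ K → K ≤ K₁ → (S y K D : ℝ) < thr K), (1 : ℝ) := by simp
    rw [h4]
    refine le_trans (b := ∑ D ∈ (σ.R K₁).filter (fun D => ∀ K, 1 ≤ K → K₀ ≤ K → K ≤ K₁ → (S y K D : ℝ) < thr K),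
      W K₀ y K₁ D * (fun _ => (1 : ℝ)) (S y K₁ D)) ?_ ?_
    · refine sum_le_sum fun D hD => ?_
      have h5 := (mem_filter.1 hD).2
      have h6 : W K₀ y K₁ D = 1 := by
        unfold W
        refine prod_eq_one fun i hi => ?_
        unfold hh
        rw [mem_range] at hi
        split_ifs with h7
        · have h8 := h5 (i + 1) (by omega) h7 (by omega)
          unfold I
          rw [if_neg (not_le.2 h8)]; norm_num
        · rfl
      rw [h6]; norm_num
    · refine sum_le_sum_of_subset_of_nonneg (filter_subset _ _) fun D _ _ => ?_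
      have : 0 ≤ W K₀ y K₁ D := prod_nonneg fun i _ => hh_nonneg _ _ _
      simpa using this
  refine h3.trans ?_
  rw [h1]
  have h4 : (0 : ℝ) ≤ (σ.R K₁).card := by positivity
  nlinarith

/-! ### Residues of integers -/

lemma sum_crt {m n : ℕ} (h : m.Coprime n) (hm : 0 < m) (hn : 0 < n) (Φ : ℕ → ℕ → ℝ) :
    ∑ D ∈ range (m * n), Φ (D % m) (D % n) = ∑ a ∈ range m, ∑ b ∈ range n, Φ a b := by
  rw [← sum_product']
  refine sum_nbij (fun D => (D % m, D % n)) ?_ ?_ ?_ ?_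
  · intro D _
    exact mem_product.2 ⟨mem_range.2 (Nat.mod_lt _ hm), mem_range.2 (Nat.mod_lt _ hn)⟩
  · intro D hD E hE hDE
    have h1 : D % m = E % m := congrArg Prod.fst hDE
    have h2 : D % n = E % n := congrArg Prod.snd hDE
    have h3 : D ≡ E [MOD m * n] := (Nat.modEq_and_modEq_iff_modEq_mul h).1 ⟨h1, h2⟩
    exact Nat.ModEq.eq_of_lt_of_lt h3 (mem_range.1 hD) (mem_range.1 hE)
  · rintro ⟨a, b⟩ hab
    have hab' := mem_product.1 hab
    have ha : a < m := mem_range.1 hab'.1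
    have hb : b < n := mem_range.1 hab'.2
    refine ⟨Nat.chineseRemainder h a b, mem_coe.2 (mem_range.2 (Nat.chineseRemainder_lt_mul h a b hm.ne' hn.ne')), ?_⟩
    have h1 := (Nat.chineseRemainder h a b).2
    refine Prod.ext ?_ ?_
    · show (Nat.chineseRemainder h a b : ℕ) % m = a
      have h2 : (Nat.chineseRemainder h a b : ℕ) % m = a % m := h1.1
      rw [h2, Nat.mod_eq_of_lt ha]
    · show (Nat.chineseRemainder h a b : ℕ) % n = b
      have h2 : (Nat.chineseRemainder h a b : ℕ) % n = b % n := h1.2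
      rw [h2, Nat.mod_eq_of_lt hb]
  · intro D _; rfl

/-- the residues `0, ..., P - 1` as integers -/
def res (P : ℕ) : Finset ℤ := (range P).map Nat.castEmbedding

lemma sum_res (P : ℕ) (F : ℤ → ℝ) : ∑ D ∈ res P, F D = ∑ n ∈ range P, F (n : ℤ) := by
  unfold res; rw [sum_map]; rfl

lemma card_res (P : ℕ) : (res P).card = P := by unfold res; simp

lemma sum_crt' {m n : ℕ} (h : m.Coprime n) (hm : 0 < m) (hn : 0 < n) (Φ : ℤ → ℤ → ℝ) :
    ∑ D ∈ res (m * n), Φ (D % (m : ℤ)) (D % (n : ℤ)) = ∑ a ∈ res m, ∑ b ∈ res n, Φ a b := by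
  simp only [sum_res]
  rw [← sum_crt h hm hn (fun a b => Φ (a : ℤ) (b : ℤ))]
  refine sum_congr rfl fun D _ => ?_
  push_cast
  rfl

/-- the `k`-th prime -/
def pr (k : ℕ) : ℕ := Nat.nth Nat.Prime k

lemma pr_prime (k : ℕ) : (pr k).Prime := Nat.prime_nth_prime k

lemma pr_inj : Function.Injective pr := Nat.nth_injective Nat.infinite_setOfPred_prime

lemma pr_ne_two {k : ℕ} (hk : k ≠ 0) : pr k ≠ 2 := by
  intro h
  have h0 : pr 0 = 2 := Nat.nth_prime_zero_eq_two
  exact hk (pr_inj (h.trans h0.symm))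

lemma lt_pr (k : ℕ) : k + 1 < pr k := by
  have := Nat.add_two_le_nth_prime k
  unfold pr
  omega

def PP (K : ℕ) : ℕ := ∏ k ∈ range K, pr k

lemma PP_pos (K : ℕ) : 0 < PP K := prod_pos fun k _ => (pr_prime k).pos

lemma PP_succ (K : ℕ) : PP (K + 1) = PP K * pr K := prod_range_succ _ _

lemma PP_coprime (K : ℕ) : (PP K).Coprime (pr K) := by
  refine Nat.Coprime.prod_left fun k hk => ?_
  rw [Nat.coprime_primes (pr_prime k) (pr_prime K)]
  intro h
  have := pr_inj h
  rw [mem_range] at hk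
  omega

lemma dvd_PP {k K : ℕ} (h : k < K) : pr k ∣ PP K := dvd_prod_of_mem _ (mem_range.2 h)

/-- the scheme of the integers -/
def sch1 : Scheme ℤ where
  R K := res (PP K)
  r k := res (pr k)
  f K D := D % (PP K : ℤ)
  g k D := D % (pr k : ℤ)
  one := by rw [card_res]; simp [PP]
  pos k := by rw [card_res]; exact (pr_prime k).pos
  crt K Φ := by rw [PP_succ]; exact sum_crt' (PP_coprime K) (PP_pos K) (pr_prime K).pos Φ

/-- the scheme of the pairs of integers -/
def sch2 : Scheme (ℤ × ℤ) where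
  R K := res (PP K) ×ˢ res (PP K)
  r k := res (pr k) ×ˢ res (pr k)
  f K D := (D.1 % (PP K : ℤ), D.2 % (PP K : ℤ))
  g k D := (D.1 % (pr k : ℤ), D.2 % (pr k : ℤ))
  one := by rw [card_product, card_res]; simp [PP]
  pos k := by rw [card_product, card_res]; exact Nat.mul_pos (pr_prime k).pos (pr_prime k).pos
  crt K Φ := by
    rw [PP_succ, sum_product]
    have h1 : ∀ a ∈ res (PP K * pr K), ∑ b ∈ res (PP K * pr K),
        Φ (a % (PP K : ℤ), b % (PP K : ℤ)) (a % (pr K : ℤ), b % (pr K : ℤ)) =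
        (fun u v => ∑ c ∈ res (PP K), ∑ d ∈ res (pr K), Φ (u, c) (v, d)) (a % (PP K : ℤ)) (a % (pr K : ℤ)) :=
      fun a _ => sum_crt' (PP_coprime K) (PP_pos K) (pr_prime K).pos
        (fun c d => Φ (a % (PP K : ℤ), c) (a % (pr K : ℤ), d))
    rw [sum_congr rfl h1, sum_crt' (PP_coprime K) (PP_pos K) (pr_prime K).pos
      (fun u v => ∑ c ∈ res (PP K), ∑ d ∈ res (pr K), Φ (u, c) (v, d))]
    rw [sum_product]
    refine sum_congr rfl fun a _ => ?_
    rw [sum_comm]
    refine sum_congr rfl fun c _ => ?_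
    rw [sum_product]

/-! ### Intervals -/

lemma card_class (P : ℕ) (hP : 0 < P) (M : ℤ) (H : ℕ) (v : ℤ) :
    (((Ico M (M + H)).filter (fun D => D % (P : ℤ) = v % (P : ℤ))).card : ℝ) ≤ H / P + 1 := by
  have h := Int.Ico_filter_modEq_card M (M + H) (r := (P : ℤ)) (by exact_mod_cast hP) v
  have h0 : ((Ico M (M + H)).filter (fun D => D % (P : ℤ) = v % (P : ℤ))) =
      ((Ico M (M + H)).filter (fun D => D ≡ v [ZMOD P])) := rfl
  rw [h0]
  have h1 : (((((Ico M (M + H)).filter (fun D => D ≡ v [ZMOD P])).card : ℕ) : ℤ) : ℝ) =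
      ((max (⌈((M + H : ℤ) - v) / ((P : ℤ) : ℚ)⌉ - ⌈(M - v) / ((P : ℤ) : ℚ)⌉) 0 : ℤ) : ℝ) := by
    rw [h]
  have h2 : ((((Ico M (M + H)).filter (fun D => D ≡ v [ZMOD P])).card : ℕ) : ℝ) =
    (((((Ico M (M + H)).filter (fun D => D ≡ v [ZMOD P])).card : ℕ) : ℤ) : ℝ) := by norm_cast
  rw [h2, h1]
  have hPq : (0 : ℚ) < P := by exact_mod_cast hP
  have h3 : ((max (⌈((M + H : ℤ) - v) / ((P : ℤ) : ℚ)⌉ - ⌈(M - v) / ((P : ℤ) : ℚ)⌉) 0 : ℤ) : ℚ) ≤ H / P + 1 := by
    push_cast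
    apply max_le
    · have h4 := Int.ceil_lt_add_one ((((M : ℚ) + H) - v) / (P : ℚ))
      have h5 := Int.le_ceil (((M : ℚ) - v) / (P : ℚ))
      have h6 : (((M : ℚ) + H) - v) / (P : ℚ) = ((M : ℚ) - v) / P + H / P := by ring
      push_cast at h4 h5 ⊢
      linarith
    · positivity
  have h4 : ((((max (⌈((M + H : ℤ) - v) / ((P : ℤ) : ℚ)⌉ - ⌈(M - v) / ((P : ℤ) : ℚ)⌉) 0 : ℤ) : ℚ)) : ℝ) ≤ ((H / P + 1 : ℚ) : ℝ) := by
    exact_mod_cast h3
  push_cast at h4 ⊢
  exact h4

lemma card_periodic (P : ℕ) (hP : 0 < P) (Q : ℤ → Prop) [DecidablePred Q] (hQ : ∀ D : ℤ, Q (D % (P : ℤ)) ↔ Q D)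
    (M : ℤ) (H : ℕ) :
    (((Ico M (M + H)).filter Q).card : ℝ) ≤ (H / P + 1) * ((res P).filter Q).card := by
  have h1 : ((Ico M (M + H)).filter Q) ⊆ ((res P).filter Q).biUnion
      (fun v => (Ico M (M + H)).filter (fun D => D % (P : ℤ) = v % (P : ℤ))) := by
    intro D hD
    have hD' := mem_filter.1 hD
    have hPz : (0 : ℤ) < P := by exact_mod_cast hP
    refine mem_biUnion.2 ⟨D % (P : ℤ), mem_filter.2 ⟨?_, (hQ D).2 hD'.2⟩, mem_filter.2 ⟨hD'.1, ?_⟩⟩
    · unfold res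
      rw [mem_map]
      refine ⟨(D % (P : ℤ)).toNat, mem_range.2 ?_, ?_⟩
      · have := Int.emod_lt_of_pos D hPz
        have h2 := Int.emod_nonneg D hPz.ne'
        omega
      · show (((D % (P : ℤ)).toNat : ℕ) : ℤ) = _
        exact Int.toNat_of_nonneg (Int.emod_nonneg D hPz.ne')
    · exact (Int.emod_emod_of_dvd _ dvd_rfl).symm
  have h2 := (card_le_card h1).trans card_biUnion_le
  have h3 : (((Ico M (M + H)).filter Q).card : ℝ) ≤
      ∑ v ∈ (res P).filter Q, (((Ico M (M + H)).filter (fun D => D % (P : ℤ) = v % (P : ℤ))).card : ℝ) := by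
    exact_mod_cast h2
  refine h3.trans ((sum_le_sum fun v _ => card_class P hP M H v).trans ?_)
  rw [sum_const, nsmul_eq_mul, mul_comm]

end

end Pool.Agent.J4.H33.LIL
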