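import Mathlib
import Pool.Agent.W406.TW.Ang
import Pool.Agent.J4.H33.LIL.Crt

set_option autoImplicit false

/-! # Signs of traces of Frobenius, and discrepancies -/

namespace Pool.Agent.J4.H33.LIL

open Finset Pool.Agent.W406.TW

noncomputable section

/-- The number of the solutions `(x, y)` of `y² = x³ + A x + B` modulo `p`. -/
def points (p : ℕ) (A B : ℤ) : ℕ :=
  ((range p ×ˢ range p).filter
    (fun xy : ℕ × ℕ => (p : ℤ) ∣ (xy.2 : ℤ) ^ 2 - ((xy.1 : ℤ) ^ 3 + A * xy.1 + B))).card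

lemma card_sqrts {p : ℕ} (hp : p.Prime) (hp2 : p ≠ 2) (c : ℤ) :
    (((range p).filter (fun y : ℕ => (p : ℤ) ∣ (y : ℤ) ^ 2 - c)).card : ℤ) = jacobiSym c p + 1 := by
  have := Fact.mk hp
  have : NeZero p := ⟨hp.ne_zero⟩
  have h1 := quadraticChar_card_sqrts (F := ZMod p) (by rw [ZMod.ringChar_zmod_n]; exact hp2) (c : ZMod p)
  have h2 : jacobiSym c p = quadraticChar (ZMod p) (c : ZMod p) := by
    rw [← jacobiSym.legendreSym.to_jacobiSym]; rfl
  rw [h2, ← h1]
  congr 1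
  refine card_bij (fun i _ => (i : ZMod p)) ?_ ?_ ?_
  · intro y hy
    have hy' := (mem_filter.1 hy).2
    rw [Set.mem_toFinset, Set.mem_ofPred_eq]
    have h3 : (((y : ℤ) ^ 2 - c : ℤ) : ZMod p) = 0 := (ZMod.intCast_zmod_eq_zero_iff_dvd _ p).2 hy'
    push_cast at h3
    exact sub_eq_zero.1 h3
  · intro y hy z hz hyz
    have h3 := (ZMod.natCast_eq_natCast_iff _ _ _).1 hyz
    exact Nat.ModEq.eq_of_lt_of_lt h3 (mem_range.1 (mem_filter.1 hy).1) (mem_range.1 (mem_filter.1 hz).1)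
  · intro b hb
    rw [Set.mem_toFinset, Set.mem_ofPred_eq] at hb
    refine ⟨b.val, mem_filter.2 ⟨mem_range.2 (ZMod.val_lt b), ?_⟩, ZMod.natCast_zmod_val b⟩
    rw [← ZMod.intCast_zmod_eq_zero_iff_dvd]
    push_cast
    rw [ZMod.natCast_zmod_val, hb, sub_self]

lemma points_eq {p : ℕ} (hp : p.Prime) (hp2 : p ≠ 2) (A B : ℤ) : (p : ℤ) - points p A B = ap A B p := by
  have h1 : (points p A B : ℤ) = ∑ x ∈ range p, (jacobiSym ((x : ℤ) ^ 3 + A * x + B) p + 1) := by
    unfold points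
    have h2 : ((range p ×ˢ range p).filter
        (fun xy : ℕ × ℕ => (p : ℤ) ∣ (xy.2 : ℤ) ^ 2 - ((xy.1 : ℤ) ^ 3 + A * xy.1 + B))).card =
        ∑ x ∈ range p, ((range p).filter (fun y : ℕ => (p : ℤ) ∣ (y : ℤ) ^ 2 - ((x : ℤ) ^ 3 + A * x + B))).card := by
      rw [card_filter, sum_product]
      refine sum_congr rfl fun x _ => ?_
      rw [card_filter]
    rw [h2]
    push_cast
    exact sum_congr rfl fun x _ => card_sqrts hp hp2 _
  rw [h1, sum_add_distrib]
  unfold ap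
  simp

lemma ap_congr {p : ℕ} (hp : p.Prime) {A A' B B' : ℤ} (hA : (A : ZMod p) = A') (hB : (B : ZMod p) = B') :
    ap A B p = ap A' B' p := by
  have : NeZero p := ⟨hp.ne_zero⟩
  rw [ap_eq, ap_eq, hA, hB]

/-- an involution argument -/
lemma half {β : Type*} (s : Finset β) (φ : β → β) (v : β → ℤ) (hφ : ∀ b ∈ s, φ b ∈ s)
    (hinj : ∀ b ∈ s, ∀ c ∈ s, φ b = φ c → b = c) (hv : ∀ b ∈ s, v (φ b) = - v b) :
    2 * (s.filter (fun b => 0 < v b)).card ≤ s.card := by
  classical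
  have h1 : (s.filter (fun b => 0 < v b)).card ≤ (s.filter (fun b => ¬ 0 < v b)).card := by
    refine card_le_card_of_injOn φ ?_ ?_
    · intro b hb
      have hb' := mem_filter.1 (mem_coe.1 hb)
      refine mem_coe.2 (mem_filter.2 ⟨hφ b hb'.1, ?_⟩)
      rw [hv b hb'.1]
      have := hb'.2
      omega
    · intro b hb c hc h
      exact hinj b (mem_filter.1 (mem_coe.1 hb)).1 c (mem_filter.1 (mem_coe.1 hc)).1 h
  have h2 := card_filter_add_card_filter_not (s := s) (fun b => 0 < v b)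
  omega

lemma mem_res {P : ℕ} {D : ℤ} : D ∈ res P ↔ 0 ≤ D ∧ D < P := by
  unfold res
  rw [mem_map]
  constructor
  · rintro ⟨n, hn, rfl⟩
    refine ⟨Int.natCast_nonneg n, ?_⟩
    have h1 := mem_range.1 hn
    show (n : ℤ) < P
    exact_mod_cast h1
  · rintro ⟨h1, h2⟩
    refine ⟨D.toNat, mem_range.2 (by omega), ?_⟩
    exact Int.toNat_of_nonneg h1

lemma emod_mem_res {P : ℕ} (hP : 0 < P) (D : ℤ) : D % (P : ℤ) ∈ res P :=
  mem_res.2 ⟨Int.emod_nonneg D (by exact_mod_cast hP.ne'), Int.emod_lt_of_pos D (by exact_mod_cast hP)⟩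

lemma mul_inj {p : ℕ} (hp : p.Prime) {g : ℤ} (hg : ¬ (p : ℤ) ∣ g) {b c : ℤ} (hb : b ∈ res p) (hc : c ∈ res p)
    (h : (g * b) % (p : ℤ) = (g * c) % (p : ℤ)) : b = c := by
  have h1 : (p : ℤ) ∣ g * b - g * c := (Int.emod_eq_emod_iff_emod_sub_eq_zero.1 h) |> Int.dvd_of_emod_eq_zero
  rw [← mul_sub] at h1
  have h2 := ((Nat.prime_iff_prime_int.1 hp).dvd_or_dvd h1).resolve_left hg
  have hb' := mem_res.1 hb
  have hc' := mem_res.1 hc
  have h3 : b - c = 0 := by
    apply Int.eq_zero_of_abs_lt_dvd h2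
    rw [abs_lt]; constructor <;> linarith
  linarith

lemma exists_nonres {p : ℕ} (hp : p.Prime) (hp2 : p ≠ 2) : ∃ g : ℤ, jacobiSym g p = -1 ∧ ¬ (p : ℤ) ∣ g := by
  obtain ⟨g, hg⟩ := exists_neg (hp.odd_of_ne_two hp2) (not_square_prime hp)
  exact ⟨g, hg, not_dvd_of_jac hp (by rw [hg]; decide)⟩

/-! ### The sign variables -/

/-- the variable at the prime number `k`: `-1` if the trace is positive and `k ≠ 0`, and `1` otherwise -/
def sg (k : ℕ) (A B : ℤ) : ℤ := if k ≠ 0 ∧ 0 < ap A B (pr k) then -1 else 1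

lemma sg_or (k : ℕ) (A B : ℤ) : sg k A B = 1 ∨ sg k A B = -1 := by
  unfold sg; split_ifs <;> simp

lemma sg_congr {k : ℕ} {A A' B B' : ℤ} (hA : (A : ZMod (pr k)) = A') (hB : (B : ZMod (pr k)) = B') :
    sg k A B = sg k A' B' := by
  unfold sg; rw [ap_congr (pr_prime k) hA hB]

lemma emod_cast {k : ℕ} {P : ℕ} (h : pr k ∣ P) (D : ℤ) : ((D % (P : ℤ) : ℤ) : ZMod (pr k)) = (D : ZMod (pr k)) := by
  rw [ZMod.intCast_eq_intCast_iff]
  exact (Int.mod_modEq D P).of_dvd (by exact_mod_cast h)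

/-- the sign variables of the twists -/
def y1 (A B : ℤ) (k : ℕ) (D : ℤ) : ℤ := sg k (A * D ^ 2) (B * D ^ 3)

/-- the sign variables of all curves -/
def y2 (k : ℕ) (D : ℤ × ℤ) : ℤ := sg k D.1 D.2

lemma y1_congr (A B : ℤ) (k : ℕ) {D E : ℤ} (h : (D : ZMod (pr k)) = E) : y1 A B k D = y1 A B k E :=
  sg_congr (by push_cast; rw [h]) (by push_cast; rw [h])

lemma compl_card {β : Type*} (s : Finset β) (y : β → ℤ) (hy : ∀ b, y b = 1 ∨ y b = -1)
    (h : 2 * (s.filter (fun b => y b = -1)).card ≤ s.card) : s.card ≤ 2 * (s.filter (fun b => y b = 1)).card := by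
  classical
  have h2 := card_filter_add_card_filter_not (s := s) (fun b => y b = 1)
  have h3 : s.filter (fun b => ¬ y b = 1) = s.filter (fun b => y b = -1) := by
    refine filter_congr fun b _ => ?_
    rcases hy b with h | h <;> rw [h] <;> decide
  rw [h3] at h2
  omega

lemma sg_filter {β : Type*} (s : Finset β) (k : ℕ) (a b : β → ℤ)
    (h : k ≠ 0 → 2 * (s.filter (fun D => 0 < ap (a D) (b D) (pr k))).card ≤ s.card) :
    2 * (s.filter (fun D => sg k (a D) (b D) = -1)).card ≤ s.card := by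
  classical
  by_cases hk : k = 0
  · have : s.filter (fun D => sg k (a D) (b D) = -1) = ∅ := by
      refine filter_eq_empty_iff.2 fun D _ => ?_
      unfold sg
      rw [if_neg (by simp [hk])]; decide
    rw [this]; simp
  · have : s.filter (fun D => sg k (a D) (b D) = -1) = s.filter (fun D => 0 < ap (a D) (b D) (pr k)) := by
      refine filter_congr fun D _ => ?_
      unfold sg
      split_ifs with h1
      · simp [h1.2]
      · have : ¬ 0 < ap (a D) (b D) (pr k) := fun h2 => h1 ⟨hk, h2⟩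
        simp [this]
    rw [this]; exact h hk

lemma half1 (A B : ℤ) (k : ℕ) : (res (pr k)).card ≤ 2 * ((res (pr k)).filter (fun b => y1 A B k b = 1)).card := by
  apply compl_card _ _ (fun b => sg_or _ _ _)
  apply sg_filter (res (pr k)) k (fun D => A * D ^ 2) (fun D => B * D ^ 3)
  intro hk
  have hp := pr_prime k
  have hp2 := pr_ne_two hk
  obtain ⟨g, hg, hgd⟩ := exists_nonres hp hp2
  apply half (res (pr k)) (fun D => (g * D) % (pr k : ℤ)) (fun D => ap (A * D ^ 2) (B * D ^ 3) (pr k))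
  · intro b _; exact emod_mem_res hp.pos _
  · intro b hb c hc h; exact mul_inj hp hgd hb hc h
  · intro b _
    have h1 : (((g * b) % (pr k : ℤ) : ℤ) : ZMod (pr k)) = ((g * b : ℤ) : ZMod (pr k)) := emod_cast dvd_rfl _
    have h2 : ap (A * ((g * b) % (pr k : ℤ)) ^ 2) (B * ((g * b) % (pr k : ℤ)) ^ 3) (pr k) =
        ap ((A * b ^ 2) * g ^ 2) ((B * b ^ 3) * g ^ 3) (pr k) := by
      apply ap_congr hp
      · push_cast; push_cast at h1; rw [h1]; ring
      · push_cast; push_cast at h1; rw [h1]; ring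
    show ap (A * ((g * b) % (pr k : ℤ)) ^ 2) (B * ((g * b) % (pr k : ℤ)) ^ 3) (pr k) = _
    rw [h2, ap_twist _ _ _ hp hp2, hg]; ring

lemma half2 (k : ℕ) : (res (pr k) ×ˢ res (pr k)).card ≤
    2 * ((res (pr k) ×ˢ res (pr k)).filter (fun b => y2 k b = 1)).card := by
  apply compl_card _ _ (fun b => sg_or _ _ _)
  apply sg_filter (res (pr k) ×ˢ res (pr k)) k (fun D => D.1) (fun D => D.2)
  intro hk
  have hp := pr_prime k
  have hp2 := pr_ne_two hk
  obtain ⟨g, hg, hgd⟩ := exists_nonres hp hp2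
  have hg2 : ¬ (pr k : ℤ) ∣ g ^ 2 := fun h => hgd ((Nat.prime_iff_prime_int.1 hp).dvd_of_dvd_pow h)
  have hg3 : ¬ (pr k : ℤ) ∣ g ^ 3 := fun h => hgd ((Nat.prime_iff_prime_int.1 hp).dvd_of_dvd_pow h)
  apply half (res (pr k) ×ˢ res (pr k)) (fun D => ((g ^ 2 * D.1) % (pr k : ℤ), (g ^ 3 * D.2) % (pr k : ℤ)))
    (fun D => ap D.1 D.2 (pr k))
  · intro b _; exact mem_product.2 ⟨emod_mem_res hp.pos _, emod_mem_res hp.pos _⟩
  · intro b hb c hc h
    have hb' := mem_product.1 hb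
    have hc' := mem_product.1 hc
    refine Prod.ext (mul_inj hp hg2 hb'.1 hc'.1 (congrArg Prod.fst h)) (mul_inj hp hg3 hb'.2 hc'.2 (congrArg Prod.snd h))
  · intro b _
    have h1 : (((g ^ 2 * b.1) % (pr k : ℤ) : ℤ) : ZMod (pr k)) = ((g ^ 2 * b.1 : ℤ) : ZMod (pr k)) := emod_cast dvd_rfl _
    have h1' : (((g ^ 3 * b.2) % (pr k : ℤ) : ℤ) : ZMod (pr k)) = ((g ^ 3 * b.2 : ℤ) : ZMod (pr k)) := emod_cast dvd_rfl _
    show ap ((g ^ 2 * b.1) % (pr k : ℤ)) ((g ^ 3 * b.2) % (pr k : ℤ)) (pr k) = _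
    rw [ap_congr hp h1 h1', show g ^ 2 * b.1 = b.1 * g ^ 2 by ring, show g ^ 3 * b.2 = b.2 * g ^ 3 by ring,
      ap_twist _ _ _ hp hp2, hg]; ring

/-! ### The discrepancy -/

/-- `x` is a sequence of Frobenius angles of `y² = x³ + A x + B`, up to the primes dividing `2 (4 A³ + 27 B²)`:
for every other prime `p = p_k` (`p_0 = 2`) the angle `x k ∈ [0, 1]` is given by
`2 √p cos (π x_k) = p + 1 - #E(F_p) = p - points p A B`. -/
def IsAngles (A B : ℤ) (x : ℕ → ℝ) : Prop :=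
  ∀ k : ℕ, ¬ ((Nat.nth Nat.Prime k : ℕ) : ℤ) ∣ 2 * (4 * A ^ 3 + 27 * B ^ 2) →
    x k = Real.arccos (((Nat.nth Nat.Prime k : ℕ) - (points (Nat.nth Nat.Prime k) A B : ℝ)) /
      (2 * √((Nat.nth Nat.Prime k : ℕ) : ℝ))) / Real.pi

open Classical in
/-- The star discrepancy `D_K^{*,[s]}` of the vectors `(x k, ..., x (k + s - 1))`, `k < K`, with respect to the
`s`-fold power of the Sato-Tate measure. -/
def starDisc (x : ℕ → ℝ) (s K : ℕ) : ℝ :=
  sSup {d | ∃ v : Fin s → ℝ, (∀ i, 0 ≤ v i ∧ v i ≤ 1) ∧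
    d = |(((range K).filter (fun k => ∀ i : Fin s, 0 ≤ x (k + i) ∧ x (k + i) < v i)).card : ℝ) / K -
      ∏ i, ∫ t in (0 : ℝ)..(v i), 2 * Real.sin (Real.pi * t) ^ 2|}

lemma st_int (v : ℝ) : ∫ t in (0 : ℝ)..v, 2 * Real.sin (Real.pi * t) ^ 2 =
    v - (2 * Real.pi)⁻¹ * Real.sin (2 * Real.pi * v) := by
  have h : ∀ t : ℝ, 2 * Real.sin (Real.pi * t) ^ 2 = 1 - Real.cos (2 * Real.pi * t) := by
    intro t
    rw [show 2 * Real.pi * t = 2 * (Real.pi * t) by ring, Real.cos_two_mul, Real.sin_sq]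
    ring
  simp_rw [h]
  rw [intervalIntegral.integral_sub (by simp) (by apply Continuous.intervalIntegrable; fun_prop)]
  rw [intervalIntegral.integral_comp_mul_left (fun x => Real.cos x) (by positivity)]
  simp

lemma st_one : ∫ t in (0 : ℝ)..1, 2 * Real.sin (Real.pi * t) ^ 2 = 1 := by
  rw [st_int]; simp

lemma st_half : ∫ t in (0 : ℝ)..(1 / 2), 2 * Real.sin (Real.pi * t) ^ 2 = 1 / 2 := by
  rw [st_int, show 2 * Real.pi * (1 / 2) = Real.pi by ring]; simp

lemma st_mem {v : ℝ} (h0 : 0 ≤ v) (h1 : v ≤ 1) :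
    0 ≤ ∫ t in (0 : ℝ)..v, 2 * Real.sin (Real.pi * t) ^ 2 ∧ ∫ t in (0 : ℝ)..v, 2 * Real.sin (Real.pi * t) ^ 2 ≤ 1 := by
  have hi : ∀ u v : ℝ, IntervalIntegrable (fun t : ℝ => 2 * Real.sin (Real.pi * t) ^ 2) MeasureTheory.volume u v :=
    fun u v => Continuous.intervalIntegrable (by fun_prop) _ _
  have h2 := intervalIntegral.integral_add_adjacent_intervals (hi 0 v) (hi v 1)
  rw [st_one] at h2
  have h3 : ∀ {u v : ℝ}, u ≤ v → 0 ≤ ∫ t in u..v, 2 * Real.sin (Real.pi * t) ^ 2 :=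
    fun h => intervalIntegral.integral_nonneg h fun t _ => by positivity
  exact ⟨h3 h0, by linarith [h3 h1]⟩

lemma starDisc_ge (x : ℕ → ℝ) (s K : ℕ) (hs : 1 ≤ s) :
    1 / 2 - (((range K).filter (fun k => x k < 1 / 2)).card : ℝ) / K ≤ starDisc x s K := by
  classical
  let i₀ : Fin s := ⟨0, hs⟩
  let w : Fin s → ℝ := fun i => if i = i₀ then 1 / 2 else 1
  have hw : ∀ i, 0 ≤ w i ∧ w i ≤ 1 := by
    intro i
    simp only [w]
    split_ifs <;> norm_num
  have hprod : ∏ i, ∫ t in (0 : ℝ)..(w i), 2 * Real.sin (Real.pi * t) ^ 2 = 1 / 2 := by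
    rw [← Finset.mul_prod_erase univ _ (mem_univ i₀)]
    have h1 : ∏ i ∈ univ.erase i₀, ∫ t in (0 : ℝ)..(w i), 2 * Real.sin (Real.pi * t) ^ 2 = 1 := by
      apply prod_eq_one
      intro i hi
      have : i ≠ i₀ := (mem_erase.1 hi).1
      simp only [w, this, if_false]
      exact st_one
    rw [h1, mul_one]
    simp only [w, if_true]
    exact st_half
  have h1 : |(((range K).filter (fun k => ∀ i : Fin s, 0 ≤ x (k + i) ∧ x (k + i) < w i)).card : ℝ) / K -
      ∏ i, ∫ t in (0 : ℝ)..(w i), 2 * Real.sin (Real.pi * t) ^ 2| ≤ starDisc x s K := by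
    apply le_csSup
    · refine ⟨1, ?_⟩
      rintro d ⟨v, hv, rfl⟩
      have h2 : (0 : ℝ) ≤ (((range K).filter (fun k => ∀ i : Fin s, 0 ≤ x (k + i) ∧ x (k + i) < v i)).card : ℝ) / K := by
        positivity
      have h3 : (((range K).filter (fun k => ∀ i : Fin s, 0 ≤ x (k + i) ∧ x (k + i) < v i)).card : ℝ) / K ≤ 1 := by
        apply div_le_one_of_le₀ _ (by positivity)
        have := card_filter_le (range K) (fun k => ∀ i : Fin s, 0 ≤ x (k + i) ∧ x (k + i) < v i)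
        rw [card_range] at this
        exact_mod_cast this
      have h4 : 0 ≤ ∏ i, ∫ t in (0 : ℝ)..(v i), 2 * Real.sin (Real.pi * t) ^ 2 :=
        prod_nonneg fun i _ => (st_mem (hv i).1 (hv i).2).1
      have h5 : ∏ i, ∫ t in (0 : ℝ)..(v i), 2 * Real.sin (Real.pi * t) ^ 2 ≤ 1 :=
        prod_le_one (fun i _ => (st_mem (hv i).1 (hv i).2).1) fun i _ => (st_mem (hv i).1 (hv i).2).2
      rw [abs_le]
      constructor <;> linarith
    · exact ⟨w, hw, rfl⟩
  refine le_trans ?_ h1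
  rw [hprod]
  have h2 : ((range K).filter (fun k => ∀ i : Fin s, 0 ≤ x (k + i) ∧ x (k + i) < w i)).card ≤
      ((range K).filter (fun k => x k < 1 / 2)).card := by
    apply card_le_card
    intro k hk
    have hk' := mem_filter.1 hk
    refine mem_filter.2 ⟨hk'.1, ?_⟩
    have h3 := (hk'.2 i₀).2
    simpa [w, i₀] using h3
  have h3 : (((range K).filter (fun k => ∀ i : Fin s, 0 ≤ x (k + i) ∧ x (k + i) < w i)).card : ℝ) / K ≤
      (((range K).filter (fun k => x k < 1 / 2)).card : ℝ) / K := by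
    apply div_le_div_of_nonneg_right _ (by positivity)
    exact_mod_cast h2
  have h4 := neg_abs_le ((((range K).filter (fun k => ∀ i : Fin s, 0 ≤ x (k + i) ∧ x (k + i) < w i)).card : ℝ) / K - 1 / 2)
  linarith

/-- the number of the primes `p_k`, `k < K`, dividing `2 (4 A³ + 27 B²)` -/
def bad (A B : ℤ) (K : ℕ) : ℕ := ((range K).filter (fun k => (pr k : ℤ) ∣ 2 * (4 * A ^ 3 + 27 * B ^ 2))).card

/-- the discrepancy in terms of the walk -/
lemma starDisc_walk (A B : ℤ) (x : ℕ → ℝ) (hx : IsAngles A B x) (s K : ℕ) (hs : 1 ≤ s) (hK : 1 ≤ K) :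
    ((∑ k ∈ range K, sg k A B : ℤ) : ℝ) / (2 * K) - (bad A B K : ℝ) / K ≤ starDisc x s K := by
  classical
  refine le_trans ?_ (starDisc_ge x s K hs)
  have hK0 : (0 : ℝ) < K := by exact_mod_cast hK
  have h1 : (range K).filter (fun k => x k < 1 / 2) ⊆ (range K).filter (fun k => sg k A B = -1) ∪
      (range K).filter (fun k => (pr k : ℤ) ∣ 2 * (4 * A ^ 3 + 27 * B ^ 2)) := by
    intro k hk
    have hk' := mem_filter.1 hk
    by_cases hd : (pr k : ℤ) ∣ 2 * (4 * A ^ 3 + 27 * B ^ 2)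
    · exact mem_union_right _ (mem_filter.2 ⟨hk'.1, hd⟩)
    · refine mem_union_left _ (mem_filter.2 ⟨hk'.1, ?_⟩)
      have hk0 : k ≠ 0 := by
        rintro rfl
        apply hd
        have h0 : pr 0 = 2 := Nat.nth_prime_zero_eq_two
        rw [h0]
        exact Dvd.intro _ rfl
      have h2 := hx k hd
      have h3 := hk'.2
      rw [h2, div_lt_iff₀ Real.pi_pos, show 1 / 2 * Real.pi = Real.pi / 2 by ring, Real.arccos_lt_pi_div_two] at h3
      have hp : (0 : ℝ) < √((Nat.nth Nat.Prime k : ℕ) : ℝ) := by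
        apply Real.sqrt_pos.2
        exact_mod_cast (pr_prime k).pos
      have h4 : (0 : ℝ) < (Nat.nth Nat.Prime k : ℕ) - (points (Nat.nth Nat.Prime k) A B : ℝ) := by
        by_contra hcon
        push Not at hcon
        have := div_nonpos_of_nonpos_of_nonneg hcon (by positivity : (0 : ℝ) ≤ 2 * √((Nat.nth Nat.Prime k : ℕ) : ℝ))
        linarith
      have h5 : (0 : ℤ) < (Nat.nth Nat.Prime k : ℕ) - (points (Nat.nth Nat.Prime k) A B : ℤ) := by exact_mod_cast h4
      have h6 := points_eq (pr_prime k) (pr_ne_two hk0) A B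
      have h7 : 0 < ap A B (pr k) := by rw [← h6]; exact h5
      unfold sg
      rw [if_pos ⟨hk0, h7⟩]
  have h2 := (card_le_card h1).trans (card_union_le _ _)
  have h3 : (∑ k ∈ range K, sg k A B : ℤ) = K - 2 * ((range K).filter (fun k => sg k A B = -1)).card := by
    have h4 : ∀ k ∈ range K, sg k A B = 1 - 2 * (if sg k A B = -1 then 1 else 0) := by
      intro k _
      rcases sg_or k A B with h | h <;> rw [h] <;> norm_num
    rw [sum_congr rfl h4, sum_sub_distrib, ← mul_sum, sum_boole]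
    simp
  have h4 : (((range K).filter (fun k => x k < 1 / 2)).card : ℝ) ≤
      ((range K).filter (fun k => sg k A B = -1)).card + (bad A B K : ℝ) := by exact_mod_cast h2
  have h5 : ((∑ k ∈ range K, sg k A B : ℤ) : ℝ) = K - 2 * ((range K).filter (fun k => sg k A B = -1)).card := by
    rw [h3]; push_cast; ring
  rw [h5]
  have h6 : (((range K).filter (fun k => x k < 1 / 2)).card : ℝ) / K ≤
      (((range K).filter (fun k => sg k A B = -1)).card + (bad A B K : ℝ)) / K :=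
    div_le_div_of_nonneg_right h4 hK0.le
  have h7 : ((K : ℝ) - 2 * ((range K).filter (fun k => sg k A B = -1)).card) / (2 * K) - (bad A B K : ℝ) / K =
      1 / 2 - (((range K).filter (fun k => sg k A B = -1)).card + (bad A B K : ℝ)) / K := by
    field_simp
    ring
  rw [h7]
  linarith

end

end Pool.Agent.J4.H33.LIL
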