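import Mathlib
import Pool.Agent.J4.H33.LIL.Arith

set_option autoImplicit false

/-! # Bad primes, and the conclusion for twists -/

namespace Pool.Agent.J4.H33.LIL

open Finset Pool.Agent.W406.TW

noncomputable section

/-- the conclusion for one curve: a large discrepancy at `K`, for all angles and all dimensions -/
def Large (A B : ℤ) (K : ℕ) : Prop :=
  ∀ x : ℕ → ℝ, IsAngles A B x → ∀ s : ℕ, 1 ≤ s → √(Real.log (Real.log K) / K) / 160 ≤ starDisc x s K

lemma finish (A B : ℤ) (K : ℕ) (hK : 1 ≤ K) (hS : thr K ≤ ((∑ k ∈ range K, sg k A B : ℤ) : ℝ))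
    (hbad : (bad A B K : ℝ) ≤ thr K / 4) : Large A B K := by
  intro x hx s hs
  refine le_trans ?_ (starDisc_walk A B x hx s K hs hK)
  have hK0 : (0 : ℝ) < K := by exact_mod_cast hK
  have h1 : thr K / (2 * K) ≤ ((∑ k ∈ range K, sg k A B : ℤ) : ℝ) / (2 * K) :=
    div_le_div_of_nonneg_right hS (by positivity)
  have h2 : (bad A B K : ℝ) / K ≤ thr K / 4 / K := div_le_div_of_nonneg_right hbad hK0.le
  have h3 : √(Real.log (Real.log K) / K) = √(K * Real.log (Real.log K)) / K := by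
    have : Real.log (Real.log K) / K = (K * Real.log (Real.log K)) / K ^ 2 := by field_simp
    rw [this, Real.sqrt_div' _ (by positivity), Real.sqrt_sq hK0.le]
  rw [h3]
  have h4 : thr K / (2 * K) - thr K / 4 / K = √(K * Real.log (Real.log K)) / K / 160 := by
    unfold thr
    field_simp
    ring
  linarith

/-! ### A weighted first moment -/

/-- weights -/
def wt (k : ℕ) : ℝ := ((k : ℝ) + 1) ^ (-(1 / 4) : ℝ)

lemma wt_pos (k : ℕ) : 0 < wt k := by unfold wt; positivity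

lemma wt_le_one (k : ℕ) : wt k ≤ 1 := by
  unfold wt
  apply Real.rpow_le_one_of_one_le_of_nonpos
  · have : (0 : ℝ) ≤ k := Nat.cast_nonneg k
    linarith
  · norm_num

lemma wt_anti {k K : ℕ} (h : k < K) : (K : ℝ) ^ (-(1 / 4) : ℝ) ≤ wt k := by
  unfold wt
  apply Real.rpow_le_rpow_of_nonpos (by positivity)
  · have : k + 1 ≤ K := h
    exact_mod_cast this
  · norm_num

lemma exists_wt_sum : ∃ C : ℝ, 0 < C ∧ ∀ K : ℕ, ∑ k ∈ range K, wt k / (k + 1) ≤ C := by
  have hs : Summable (fun n : ℕ => 1 / (n : ℝ) ^ (5 / 4 : ℝ)) := Real.summable_one_div_nat_rpow.2 (by norm_num)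
  have hs' : Summable (fun n : ℕ => 1 / ((n + 1 : ℕ) : ℝ) ^ (5 / 4 : ℝ)) :=
    (summable_nat_add_iff (f := fun n : ℕ => 1 / (n : ℝ) ^ (5 / 4 : ℝ)) 1).2 hs
  refine ⟨(∑' n : ℕ, 1 / ((n + 1 : ℕ) : ℝ) ^ (5 / 4 : ℝ)) + 1, ?_, fun K => ?_⟩
  · have : 0 ≤ ∑' n : ℕ, 1 / ((n + 1 : ℕ) : ℝ) ^ (5 / 4 : ℝ) := tsum_nonneg fun n => by positivity
    linarith
  · have h1 := hs'.sum_le_tsum (range K) (fun n _ => by positivity)
    have h2 : ∑ k ∈ range K, wt k / (k + 1) = ∑ k ∈ range K, 1 / ((k + 1 : ℕ) : ℝ) ^ (5 / 4 : ℝ) := by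
      refine sum_congr rfl fun k _ => ?_
      unfold wt
      have hk : (0 : ℝ) < (k : ℝ) + 1 := by positivity
      push_cast
      rw [div_eq_div_iff (by positivity) (by positivity), ← Real.rpow_add hk]
      norm_num
    rw [h2]
    linarith

/-- Few exceptions by Markov's inequality: the sets `Z k` have density at most `c / (k + 1)`. -/
lemma markov {β : Type*} (s : Finset β) (Z : ℕ → β → Prop) [∀ k, DecidablePred (Z k)] (X c C lam : ℝ) (K₁ : ℕ)
    (hC : ∑ k ∈ range K₁, wt k / (k + 1) ≤ C) (hlam : 0 < lam) (hc : 0 ≤ c) (hX : 0 ≤ X)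
    (hZ : ∀ k < K₁, ((s.filter (Z k)).card : ℝ) ≤ c * X / (k + 1)) :
    ((s.filter (fun D => ∃ K : ℕ, K ≤ K₁ ∧ lam * (K : ℝ) ^ (1 / 4 : ℝ) < ((range K).filter (fun k => Z k D)).card)).card : ℝ) ≤
      c * C * X / lam := by
  classical
  rw [le_div_iff₀ hlam]
  set E := s.filter (fun D => ∃ K : ℕ, K ≤ K₁ ∧ lam * (K : ℝ) ^ (1 / 4 : ℝ) < ((range K).filter (fun k => Z k D)).card) with hE
  have h1 : ∀ D ∈ E, lam ≤ ∑ k ∈ range K₁, wt k * (if Z k D then 1 else 0) := by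
    intro D hD
    obtain ⟨_, K, hK, h⟩ := mem_filter.1 hD
    have hKpos : 0 < K := by
      rcases Nat.eq_zero_or_pos K with h0 | h0
      · subst h0
        simp at h
      · exact h0
    have hKr : (0 : ℝ) < K := by exact_mod_cast hKpos
    have h2 : ((range K).filter (fun k => Z k D)).card * (K : ℝ) ^ (-(1 / 4) : ℝ) ≤
        ∑ k ∈ range K₁, wt k * (if Z k D then 1 else 0) := by
      calc ((range K).filter (fun k => Z k D)).card * (K : ℝ) ^ (-(1 / 4) : ℝ)
          = ∑ k ∈ (range K).filter (fun k => Z k D), (K : ℝ) ^ (-(1 / 4) : ℝ) := by rw [sum_const, nsmul_eq_mul]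
        _ ≤ ∑ k ∈ (range K).filter (fun k => Z k D), wt k * (if Z k D then 1 else 0) := by
            refine sum_le_sum fun k hk => ?_
            have hk' := mem_filter.1 hk
            rw [if_pos hk'.2, mul_one]
            exact wt_anti (mem_range.1 hk'.1)
        _ ≤ ∑ k ∈ range K₁, wt k * (if Z k D then 1 else 0) := by
            apply sum_le_sum_of_subset_of_nonneg
            · intro k hk
              have := mem_range.1 (mem_filter.1 hk).1
              exact mem_range.2 (by omega)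
            · intro k _ _
              have := (wt_pos k).le
              split_ifs <;> simp [this]
    have h3 : lam ≤ ((range K).filter (fun k => Z k D)).card * (K : ℝ) ^ (-(1 / 4) : ℝ) := by
      rw [Real.rpow_neg hKr.le, ← div_eq_mul_inv, le_div_iff₀ (by positivity)]
      exact h.le
    exact h3.trans h2
  have h2 : (E.card : ℝ) * lam ≤ ∑ D ∈ E, ∑ k ∈ range K₁, wt k * (if Z k D then 1 else 0) := by
    rw [← nsmul_eq_mul, ← sum_const]
    exact sum_le_sum h1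
  have h3 : ∑ D ∈ E, ∑ k ∈ range K₁, wt k * (if Z k D then (1 : ℝ) else 0) ≤
      ∑ D ∈ s, ∑ k ∈ range K₁, wt k * (if Z k D then 1 else 0) := by
    apply sum_le_sum_of_subset_of_nonneg (filter_subset _ _)
    intro D _ _
    apply sum_nonneg
    intro k _
    have := (wt_pos k).le
    split_ifs <;> simp [this]
  have h4 : ∑ D ∈ s, ∑ k ∈ range K₁, wt k * (if Z k D then (1 : ℝ) else 0) ≤ ∑ k ∈ range K₁, (c * X) * (wt k / (k + 1)) := by
    rw [sum_comm]
    refine sum_le_sum fun k hk => ?_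
    rw [← mul_sum, sum_boole]
    have h5 := mul_le_mul_of_nonneg_left (hZ k (mem_range.1 hk)) (wt_pos k).le
    refine h5.trans (le_of_eq ?_)
    ring
  have h5 : ∑ k ∈ range K₁, (c * X) * (wt k / (k + 1)) ≤ (c * X) * C := by
    rw [← mul_sum]
    exact mul_le_mul_of_nonneg_left hC (by positivity)
  calc (E.card : ℝ) * lam ≤ _ := h2
    _ ≤ _ := h3
    _ ≤ _ := h4
    _ ≤ _ := h5
    _ = c * C * X := by ring

/-- The thresholds are eventually larger than the numbers of bad primes. -/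
lemma eventually_thr (b lam : ℝ) : ∀ᶠ K : ℕ in Filter.atTop, b + lam * (K : ℝ) ^ (1 / 4 : ℝ) ≤ thr K / 4 := by
  have h1 : Filter.Tendsto (fun K : ℕ => (K : ℝ) ^ (1 / 4 : ℝ)) Filter.atTop Filter.atTop :=
    (tendsto_rpow_atTop (by norm_num)).comp tendsto_natCast_atTop_atTop
  have h2 : Filter.Tendsto (fun K : ℕ => Real.log (Real.log (K : ℝ))) Filter.atTop Filter.atTop :=
    Real.tendsto_log_atTop.comp (Real.tendsto_log_atTop.comp tendsto_natCast_atTop_atTop)
  filter_upwards [h1.eventually_ge_atTop (160 * (|b| + |lam|)), h1.eventually_ge_atTop 1, h2.eventually_ge_atTop 1]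
    with K h3 h4 h5
  set y : ℝ := (K : ℝ) ^ (1 / 4 : ℝ) with hy
  have h6 : y ^ 2 ≤ √((K : ℝ) * Real.log (Real.log K)) := by
    have h7 : y ^ 2 = √(K : ℝ) := by
      rw [hy, ← Real.rpow_natCast, ← Real.rpow_mul (Nat.cast_nonneg K), Real.sqrt_eq_rpow]
      norm_num
    rw [h7]
    apply Real.sqrt_le_sqrt
    have : (0 : ℝ) ≤ K := Nat.cast_nonneg K
    nlinarith
  have h8 : b + lam * y ≤ (|b| + |lam|) * y := by
    have h9 := le_abs_self b
    have h10 := le_abs_self lam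
    have h11 := abs_nonneg b
    nlinarith
  unfold thr
  nlinarith [abs_nonneg b, abs_nonneg lam]

/-! ### Twists -/

lemma card_dvd (k : ℕ) (M : ℤ) (H : ℕ) :
    (((Ico M (M + H)).filter (fun D => (pr k : ℤ) ∣ D)).card : ℝ) ≤ H / (k + 1) + 1 := by
  have h1 := card_class (pr k) (pr_prime k).pos M H 0
  have h2 : (Ico M (M + H)).filter (fun D => (pr k : ℤ) ∣ D) =
      (Ico M (M + H)).filter (fun D => D % (pr k : ℤ) = 0 % (pr k : ℤ)) := by
    refine filter_congr fun D _ => ?_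
    rw [Int.zero_emod]
    exact Int.dvd_iff_emod_eq_zero
  rw [h2]
  refine h1.trans ?_
  have h3 : (k : ℝ) + 1 ≤ pr k := by exact_mod_cast (lt_pr k).le
  have h4 : (H : ℝ) / pr k ≤ H / (k + 1) := div_le_div_of_nonneg_left (by positivity) (by positivity) h3
  linarith

lemma bad_twist (A B D : ℤ) (hAB : 4 * A ^ 3 + 27 * B ^ 2 ≠ 0) (K : ℕ) :
    bad (A * D ^ 2) (B * D ^ 3) K ≤ (2 * (4 * A ^ 3 + 27 * B ^ 2)).natAbs.primeFactors.card +
      ((range K).filter (fun k => (pr k : ℤ) ∣ D)).card := by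
  classical
  unfold bad
  have h1 : (range K).filter (fun k => (pr k : ℤ) ∣ 2 * (4 * (A * D ^ 2) ^ 3 + 27 * (B * D ^ 3) ^ 2)) ⊆
      (range K).filter (fun k => (pr k : ℤ) ∣ 2 * (4 * A ^ 3 + 27 * B ^ 2)) ∪ (range K).filter (fun k => (pr k : ℤ) ∣ D) := by
    intro k hk
    have hk' := mem_filter.1 hk
    by_cases hD : (pr k : ℤ) ∣ D
    · exact mem_union_right _ (mem_filter.2 ⟨hk'.1, hD⟩)
    · exact mem_union_left _ (mem_filter.2 ⟨hk'.1, (dvd_disc A B D (pr_prime k) hD).1 hk'.2⟩)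
  refine (card_le_card h1).trans ((card_union_le _ _).trans ?_)
  refine Nat.add_le_add_right ?_ _
  refine card_le_card_of_injOn pr ?_ (pr_inj.injOn)
  intro k hk
  have hk' := mem_filter.1 (mem_coe.1 hk)
  refine mem_coe.2 (Nat.mem_primeFactors.2 ⟨pr_prime k, Int.natCast_dvd.1 hk'.2, ?_⟩)
  simpa using hAB

open Classical in
theorem twists (A B : ℤ) (hAB : 4 * A ^ 3 + 27 * B ^ 2 ≠ 0) (K₀ : ℕ) (η : ℝ) (hη : 0 < η) :
    ∃ K₁ H₀ : ℕ, ∀ (M : ℤ) (H : ℕ), H₀ ≤ H →
      (((Ico M (M + H)).filter (fun D : ℤ => ¬ ∃ K : ℕ, K₀ ≤ K ∧ K ≤ K₁ ∧ Large (A * D ^ 2) (B * D ^ 3) K)).card : ℝ) ≤ η * H := by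
  obtain ⟨C, hC0, hC⟩ := exists_wt_sum
  set lam : ℝ := 4 * C / η with hlam
  have hlam0 : 0 < lam := by positivity
  set b : ℝ := ((2 * (4 * A ^ 3 + 27 * B ^ 2)).natAbs.primeFactors.card : ℝ) with hb
  obtain ⟨K₂, hK₂⟩ := Filter.eventually_atTop.1 (eventually_thr b lam)
  obtain ⟨K₁, hK₁, hL⟩ := lil (max (max K₀ K₂) 1) (η / 4) (by positivity)
  refine ⟨K₁, PP K₁ + K₁ + 1, fun M H hH => ?_⟩
  have hP : 0 < PP K₁ := PP_pos K₁
  -- the walks without success
  set Q : ℤ → Prop := fun D => ∀ K, 1 ≤ K → max (max K₀ K₂) 1 ≤ K → K ≤ K₁ → (S (y1 A B) K D : ℝ) < thr K with hQ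
  have hS : ∀ K, K ≤ K₁ → ∀ D : ℤ, S (y1 A B) K (D % (PP K₁ : ℤ)) = S (y1 A B) K D := by
    intro K hK D
    unfold S
    refine sum_congr rfl fun k hk => ?_
    rw [mem_range] at hk
    exact y1_congr A B k (emod_cast (dvd_PP (by omega)) D)
  have hQper : ∀ D : ℤ, Q (D % (PP K₁ : ℤ)) ↔ Q D := by
    intro D
    simp only [hQ]
    constructor
    · intro h K h1 h2 h3
      have := h K h1 h2 h3
      rwa [hS K h3] at this
    · intro h K h1 h2 h3
      rw [hS K h3]; exact h K h1 h2 h3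
  have hfew := few sch1 (y1 A B) (fun k D => sg_or _ _ _)
    (fun k K D hk => y1_congr A B k (emod_cast (dvd_PP hk) D))
    (fun k D => y1_congr A B k (emod_cast dvd_rfl D)) (half1 A B) (max (max K₀ K₂) 1) K₁ (η / 4) hL
  have h1 : (((res (PP K₁)).filter Q).card : ℝ) ≤ η / 4 * PP K₁ := by
    have h2 : (sch1.R K₁).card = PP K₁ := card_res _
    rw [h2] at hfew
    exact hfew
  have h2 : (((Ico M (M + H)).filter Q).card : ℝ) ≤ η / 2 * H := by
    refine (card_periodic (PP K₁) hP Q hQper M H).trans ?_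
    have hPr : (0 : ℝ) < PP K₁ := by exact_mod_cast hP
    have hHP : (PP K₁ : ℝ) ≤ H := by
      have : PP K₁ ≤ H := by omega
      exact_mod_cast this
    have h3 : ((H : ℝ) / PP K₁ + 1) * (((res (PP K₁)).filter Q).card : ℝ) ≤ ((H : ℝ) / PP K₁ + 1) * (η / 4 * PP K₁) :=
      mul_le_mul_of_nonneg_left h1 (by positivity)
    refine h3.trans ?_
    have h4 : ((H : ℝ) / PP K₁ + 1) * (η / 4 * PP K₁) = η / 4 * (H + PP K₁) := by
      field_simp
    rw [h4]
    nlinarith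
  -- many bad primes
  have h3 := markov (Ico M (M + H)) (fun k D => (pr k : ℤ) ∣ D) (H : ℝ) 2 C lam K₁ (hC K₁) hlam0 (by norm_num)
    (by positivity) (by
      intro k hk
      refine (card_dvd k M H).trans ?_
      have h4 : (k : ℝ) + 1 ≤ H := by
        have : k + 1 ≤ H := by omega
        exact_mod_cast this
      have h5 : (1 : ℝ) ≤ H / (k + 1) := by rw [le_div_iff₀ (by positivity)]; linarith
      have h6 : 2 * (H : ℝ) / (k + 1) = H / (k + 1) + H / (k + 1) := by ring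
      linarith)
  have h4 : 2 * C * (H : ℝ) / lam = η / 2 * H := by
    rw [hlam]; field_simp; ring
  rw [h4] at h3
  -- the union
  have h5 : (Ico M (M + H)).filter (fun D : ℤ => ¬ ∃ K : ℕ, K₀ ≤ K ∧ K ≤ K₁ ∧ Large (A * D ^ 2) (B * D ^ 3) K) ⊆
      (Ico M (M + H)).filter Q ∪ (Ico M (M + H)).filter (fun D => ∃ K : ℕ, K ≤ K₁ ∧
        lam * (K : ℝ) ^ (1 / 4 : ℝ) < ((range K).filter (fun k => (pr k : ℤ) ∣ D)).card) := by
    intro D hD
    have hD' := mem_filter.1 hD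
    by_contra hcon
    rw [mem_union, not_or] at hcon
    have c1 : ¬ Q D := fun h => hcon.1 (mem_filter.2 ⟨hD'.1, h⟩)
    have c2 : ¬ ∃ K : ℕ, K ≤ K₁ ∧ lam * (K : ℝ) ^ (1 / 4 : ℝ) < ((range K).filter (fun k => (pr k : ℤ) ∣ D)).card :=
      fun h => hcon.2 (mem_filter.2 ⟨hD'.1, h⟩)
    simp only [hQ] at c1
    push Not at c1 c2
    obtain ⟨K, k1, k2, k3, k4⟩ := c1
    apply hD'.2
    refine ⟨K, ((le_max_left _ _).trans (le_max_left _ _)).trans k2, k3, finish _ _ K k1 k4 ?_⟩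
    have h6 := hK₂ K (((le_max_right _ _).trans (le_max_left _ _)).trans k2)
    have h7 := c2 K k3
    have h8 : (bad (A * D ^ 2) (B * D ^ 3) K : ℝ) ≤ b + ((range K).filter (fun k => (pr k : ℤ) ∣ D)).card := by
      rw [hb]; exact_mod_cast bad_twist A B D hAB K
    linarith
  have h6 := (card_le_card h5).trans (card_union_le _ _)
  have h7 : (((Ico M (M + H)).filter (fun D : ℤ => ¬ ∃ K : ℕ, K₀ ≤ K ∧ K ≤ K₁ ∧ Large (A * D ^ 2) (B * D ^ 3) K)).card : ℝ) ≤
      ((Ico M (M + H)).filter Q).card + ((Ico M (M + H)).filter (fun D => ∃ K : ℕ, K ≤ K₁ ∧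
        lam * (K : ℝ) ^ (1 / 4 : ℝ) < ((range K).filter (fun k => (pr k : ℤ) ∣ D)).card)).card := by exact_mod_cast h6
  linarith

end

end Pool.Agent.J4.H33.LIL
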