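import Mathlib
import Pool.Agent.J4.H33.LIL.Fin1

set_option autoImplicit false

/-! # The conclusion for all curves `y² = x³ + A x + B` -/

namespace Pool.Agent.J4.H33.LIL

open Finset Pool.Agent.W406.TW

noncomputable section

lemma card_periodic2 (P : ℕ) (hP : 0 < P) (Q : ℤ × ℤ → Prop) [DecidablePred Q]
    (hQ : ∀ D : ℤ × ℤ, Q (D.1 % (P : ℤ), D.2 % (P : ℤ)) ↔ Q D) (M N : ℤ) (X Y : ℕ) :
    (((Ico M (M + X) ×ˢ Ico N (N + Y)).filter Q).card : ℝ) ≤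
      (X / P + 1) * (Y / P + 1) * ((res P ×ˢ res P).filter Q).card := by
  have e1 : ∀ (s t : Finset ℤ), (((s ×ˢ t).filter Q).card : ℝ) = ∑ a ∈ s, ((t.filter (fun b => Q (a, b))).card : ℝ) := by
    intro s t
    rw [card_filter, sum_product]
    push_cast
    refine sum_congr rfl fun a _ => ?_
    rw [card_filter]; push_cast; rfl
  have e2 : ∀ (s t : Finset ℤ), ∑ a ∈ s, ((t.filter (fun b => Q (a, b))).card : ℝ) =
      ∑ b ∈ t, ((s.filter (fun a => Q (a, b))).card : ℝ) := by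
    intro s t
    have h1 : ∀ a, ((t.filter (fun b => Q (a, b))).card : ℝ) = ∑ b ∈ t, if Q (a, b) then (1 : ℝ) else 0 := by
      intro a; rw [sum_boole]
    have h2 : ∀ b, ((s.filter (fun a => Q (a, b))).card : ℝ) = ∑ a ∈ s, if Q (a, b) then (1 : ℝ) else 0 := by
      intro b; rw [sum_boole]
    simp only [h1, h2]
    exact sum_comm
  have m2 : ∀ z : ℤ, (z % (P : ℤ)) % (P : ℤ) = z % (P : ℤ) := fun z => Int.emod_emod_of_dvd z dvd_rfl
  have q2 : ∀ a b : ℤ, Q (a, b % (P : ℤ)) ↔ Q (a, b) := by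
    intro a b
    rw [← hQ (a, b % (P : ℤ)), ← hQ (a, b)]
    simp only [m2]
  have q1 : ∀ a b : ℤ, Q (a % (P : ℤ), b) ↔ Q (a, b) := by
    intro a b
    rw [← hQ (a % (P : ℤ), b), ← hQ (a, b)]
    simp only [m2]
  rw [e1]
  have h1 : ∑ a ∈ Ico M (M + X), (((Ico N (N + Y)).filter (fun b => Q (a, b))).card : ℝ) ≤
      ∑ a ∈ Ico M (M + X), (Y / P + 1) * (((res P).filter (fun b => Q (a, b))).card : ℝ) :=
    sum_le_sum fun a _ => card_periodic P hP (fun b => Q (a, b)) (q2 a) N Y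
  refine h1.trans ?_
  rw [← mul_sum, e2]
  have h2 : ∑ b ∈ res P, (((Ico M (M + X)).filter (fun a => Q (a, b))).card : ℝ) ≤
      ∑ b ∈ res P, (X / P + 1) * (((res P).filter (fun a => Q (a, b))).card : ℝ) :=
    sum_le_sum fun b _ => card_periodic P hP (fun a => Q (a, b)) (fun a => q1 a b) M X
  have h3 := mul_le_mul_of_nonneg_left h2 (by positivity : (0 : ℝ) ≤ Y / P + 1)
  refine h3.trans (le_of_eq ?_)
  rw [← mul_sum, ← e2, ← e1]
  ring

lemma card_cubic {p : ℕ} (hp : p.Prime) (hp2 : p ≠ 2) (b : ℤ) :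
    ((res p).filter (fun a => (p : ℤ) ∣ 2 * (4 * a ^ 3 + 27 * b ^ 2))).card ≤ 3 := by
  classical
  have := Fact.mk hp
  have hz : (2 : ZMod p) ≠ 0 := by
    intro h
    have h2 : ((2 : ℕ) : ZMod p) = 0 := by exact_mod_cast h
    rw [ZMod.natCast_eq_zero_iff] at h2
    exact hp2 ((Nat.prime_dvd_prime_iff_eq hp Nat.prime_two).1 h2)
  set f : Polynomial (ZMod p) := Polynomial.C 8 * Polynomial.X ^ 3 + Polynomial.C (54 * (b : ZMod p) ^ 2) with hf
  have h8 : (8 : ZMod p) ≠ 0 := by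
    have : (8 : ZMod p) = 2 ^ 3 := by norm_num
    rw [this]; exact pow_ne_zero _ hz
  have hcoef : f.coeff 3 = 8 := by
    rw [hf, Polynomial.coeff_add, Polynomial.coeff_C_mul, Polynomial.coeff_X_pow, Polynomial.coeff_C]
    norm_num
  have hf0 : f ≠ 0 := by
    intro h; rw [h] at hcoef; simp at hcoef; exact h8 hcoef.symm
  have hdeg : f.natDegree ≤ 3 := by
    rw [hf]; compute_degree
  have h1 : ((res p).filter (fun a => (p : ℤ) ∣ 2 * (4 * a ^ 3 + 27 * b ^ 2))).card ≤ f.roots.toFinset.card := by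
    refine card_le_card_of_injOn (fun a : ℤ => (a : ZMod p)) ?_ ?_
    · intro a ha
      have ha' := (mem_filter.1 (mem_coe.1 ha)).2
      refine mem_coe.2 ?_
      rw [Multiset.mem_toFinset, Polynomial.mem_roots hf0, Polynomial.IsRoot.def]
      have h3 : ((2 * (4 * a ^ 3 + 27 * b ^ 2) : ℤ) : ZMod p) = 0 := (ZMod.intCast_zmod_eq_zero_iff_dvd _ p).2 ha'
      rw [hf]
      simp only [Polynomial.eval_add, Polynomial.eval_mul, Polynomial.eval_C, Polynomial.eval_pow, Polynomial.eval_X]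
      push_cast at h3
      rw [← h3]; ring
    · intro a ha c hc h
      have ha' := mem_res.1 (mem_filter.1 (mem_coe.1 ha)).1
      have hc' := mem_res.1 (mem_filter.1 (mem_coe.1 hc)).1
      have h3 := (ZMod.intCast_eq_intCast_iff a c p).1 h
      have h4 : (p : ℤ) ∣ a - c := Int.ModEq.dvd h3.symm
      have h5 : a - c = 0 := by
        apply Int.eq_zero_of_abs_lt_dvd h4
        rw [abs_lt]; constructor <;> linarith
      linarith
  have h2 : f.roots.toFinset.card ≤ 3 := (Multiset.toFinset_card_le _).trans ((Polynomial.card_roots' f).trans hdeg)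
  exact h1.trans h2

lemma card_bad_res {k : ℕ} (hk : k ≠ 0) :
    ((res (pr k) ×ˢ res (pr k)).filter (fun D : ℤ × ℤ => (pr k : ℤ) ∣ 2 * (4 * D.1 ^ 3 + 27 * D.2 ^ 2))).card ≤
      3 * pr k := by
  classical
  rw [card_filter, sum_product_right]
  have h1 : ∀ b ∈ res (pr k), ∑ a ∈ res (pr k), (if (pr k : ℤ) ∣ 2 * (4 * a ^ 3 + 27 * b ^ 2) then 1 else 0) ≤ 3 := by
    intro b _
    rw [← card_filter]
    exact card_cubic (pr_prime k) (pr_ne_two hk) b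
  refine (sum_le_sum h1).trans ?_
  rw [sum_const, card_res, smul_eq_mul, mul_comm]

lemma card_bad (k : ℕ) (M N : ℤ) (X Y : ℕ) (hX : pr k ≤ X) (hY : pr k ≤ Y) :
    (((Ico M (M + X) ×ˢ Ico N (N + Y)).filter (fun D : ℤ × ℤ => (pr k : ℤ) ∣ 2 * (4 * D.1 ^ 3 + 27 * D.2 ^ 2))).card : ℝ) ≤
      12 * (X * Y) / (k + 1) := by
  have hp0 : (0 : ℝ) < pr k := by exact_mod_cast (pr_prime k).pos
  have hXr : (pr k : ℝ) ≤ X := by exact_mod_cast hX
  have hYr : (pr k : ℝ) ≤ Y := by exact_mod_cast hY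
  by_cases hk : k = 0
  · subst hk
    have h1 := card_filter_le (Ico M (M + X) ×ˢ Ico N (N + Y)) (fun D : ℤ × ℤ => (pr 0 : ℤ) ∣ 2 * (4 * D.1 ^ 3 + 27 * D.2 ^ 2))
    rw [card_product, Int.card_Ico, Int.card_Ico] at h1
    have h2 : (M + X - M).toNat * (N + Y - N).toNat = X * Y := by simp
    rw [h2] at h1
    have h3 : (((Ico M (M + X) ×ˢ Ico N (N + Y)).filter (fun D : ℤ × ℤ => (pr 0 : ℤ) ∣ 2 * (4 * D.1 ^ 3 + 27 * D.2 ^ 2))).card : ℝ) ≤ X * Y := by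
      exact_mod_cast h1
    refine h3.trans ?_
    have : (0 : ℝ) ≤ (X : ℝ) * Y := by positivity
    push_cast
    linarith
  · have h1 := card_periodic2 (pr k) (pr_prime k).pos
      (fun D : ℤ × ℤ => (pr k : ℤ) ∣ 2 * (4 * D.1 ^ 3 + 27 * D.2 ^ 2)) (by
        intro D
        rw [← ZMod.intCast_zmod_eq_zero_iff_dvd, ← ZMod.intCast_zmod_eq_zero_iff_dvd]
        have e1 : ((D.1 % (pr k : ℤ) : ℤ) : ZMod (pr k)) = (D.1 : ZMod (pr k)) := emod_cast dvd_rfl _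
        have e2 : ((D.2 % (pr k : ℤ) : ℤ) : ZMod (pr k)) = (D.2 : ZMod (pr k)) := emod_cast dvd_rfl _
        push_cast
        push_cast at e1 e2
        rw [e1, e2]) M N X Y
    refine h1.trans ?_
    have h2 : (((res (pr k) ×ˢ res (pr k)).filter (fun D : ℤ × ℤ => (pr k : ℤ) ∣ 2 * (4 * D.1 ^ 3 + 27 * D.2 ^ 2))).card : ℝ) ≤
        3 * pr k := by exact_mod_cast card_bad_res hk
    have h3 : (X : ℝ) / pr k + 1 ≤ 2 * X / pr k := by
      have : (1 : ℝ) ≤ X / pr k := by rw [le_div_iff₀ hp0]; linarith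
      have e : 2 * (X : ℝ) / pr k = X / pr k + X / pr k := by ring
      linarith
    have h4 : (Y : ℝ) / pr k + 1 ≤ 2 * Y / pr k := by
      have : (1 : ℝ) ≤ Y / pr k := by rw [le_div_iff₀ hp0]; linarith
      have e : 2 * (Y : ℝ) / pr k = Y / pr k + Y / pr k := by ring
      linarith
    have h5 : ((X : ℝ) / pr k + 1) * (Y / pr k + 1) * (((res (pr k) ×ˢ res (pr k)).filter
        (fun D : ℤ × ℤ => (pr k : ℤ) ∣ 2 * (4 * D.1 ^ 3 + 27 * D.2 ^ 2))).card : ℝ) ≤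
        (2 * X / pr k) * (2 * Y / pr k) * (3 * pr k) := by gcongr
    refine h5.trans ?_
    have h6 : (2 * (X : ℝ) / pr k) * (2 * Y / pr k) * (3 * pr k) = 12 * (X * Y) / pr k := by
      field_simp; ring
    rw [h6]
    apply div_le_div_of_nonneg_left (by positivity) (by positivity)
    exact_mod_cast (lt_pr k).le

open Classical in
theorem curves (K₀ : ℕ) (η : ℝ) (hη : 0 < η) :
    ∃ K₁ H₀ : ℕ, ∀ (M N : ℤ) (X Y : ℕ), H₀ ≤ X → H₀ ≤ Y →
      (((Ico M (M + X) ×ˢ Ico N (N + Y)).filter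
        (fun D : ℤ × ℤ => ¬ ∃ K : ℕ, K₀ ≤ K ∧ K ≤ K₁ ∧ Large D.1 D.2 K)).card : ℝ) ≤ η * (X * Y) := by
  obtain ⟨C, hC0, hC⟩ := exists_wt_sum
  set lam : ℝ := 24 * C / η with hlam
  have hlam0 : 0 < lam := by positivity
  obtain ⟨K₂, hK₂⟩ := Filter.eventually_atTop.1 (eventually_thr 0 lam)
  obtain ⟨K₁, hK₁, hL⟩ := lil (max (max K₀ K₂) 1) (η / 8) (by positivity)
  refine ⟨K₁, PP K₁, fun M N X Y hX hY => ?_⟩
  have hP : 0 < PP K₁ := PP_pos K₁
  have hPr : (0 : ℝ) < PP K₁ := by exact_mod_cast hP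
  have hXr : (PP K₁ : ℝ) ≤ X := by exact_mod_cast hX
  have hYr : (PP K₁ : ℝ) ≤ Y := by exact_mod_cast hY
  set Q : ℤ × ℤ → Prop := fun D => ∀ K, 1 ≤ K → max (max K₀ K₂) 1 ≤ K → K ≤ K₁ → (S y2 K D : ℝ) < thr K with hQ
  have hS : ∀ K, K ≤ K₁ → ∀ D : ℤ × ℤ, S y2 K (D.1 % (PP K₁ : ℤ), D.2 % (PP K₁ : ℤ)) = S y2 K D := by
    intro K hK D
    unfold S
    refine sum_congr rfl fun k hk => ?_
    rw [mem_range] at hk
    exact sg_congr (emod_cast (dvd_PP (by omega)) D.1) (emod_cast (dvd_PP (by omega)) D.2)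
  have hQper : ∀ D : ℤ × ℤ, Q (D.1 % (PP K₁ : ℤ), D.2 % (PP K₁ : ℤ)) ↔ Q D := by
    intro D
    simp only [hQ]
    constructor
    · intro h K h1 h2 h3
      have := h K h1 h2 h3
      rwa [hS K h3] at this
    · intro h K h1 h2 h3
      rw [hS K h3]; exact h K h1 h2 h3
  have hfew := few sch2 y2 (fun k D => sg_or _ _ _)
    (fun k K D hk => sg_congr (emod_cast (dvd_PP hk) D.1) (emod_cast (dvd_PP hk) D.2))
    (fun k D => sg_congr (emod_cast dvd_rfl D.1) (emod_cast dvd_rfl D.2)) half2 (max (max K₀ K₂) 1) K₁ (η / 8) hL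
  have h1 : (((res (PP K₁) ×ˢ res (PP K₁)).filter Q).card : ℝ) ≤ η / 8 * (PP K₁ * PP K₁) := by
    have h2 : (sch2.R K₁).card = PP K₁ * PP K₁ := by
      show (res (PP K₁) ×ˢ res (PP K₁)).card = _
      rw [card_product, card_res]
    rw [h2] at hfew
    push_cast at hfew
    exact hfew
  have h2 : (((Ico M (M + X) ×ˢ Ico N (N + Y)).filter Q).card : ℝ) ≤ η / 2 * (X * Y) := by
    refine (card_periodic2 (PP K₁) hP Q hQper M N X Y).trans ?_
    have h3 : (X : ℝ) / PP K₁ + 1 ≤ 2 * X / PP K₁ := by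
      have : (1 : ℝ) ≤ X / PP K₁ := by rw [le_div_iff₀ hPr]; linarith
      have e : 2 * (X : ℝ) / PP K₁ = X / PP K₁ + X / PP K₁ := by ring
      linarith
    have h4 : (Y : ℝ) / PP K₁ + 1 ≤ 2 * Y / PP K₁ := by
      have : (1 : ℝ) ≤ Y / PP K₁ := by rw [le_div_iff₀ hPr]; linarith
      have e : 2 * (Y : ℝ) / PP K₁ = Y / PP K₁ + Y / PP K₁ := by ring
      linarith
    have h5 : ((X : ℝ) / PP K₁ + 1) * (Y / PP K₁ + 1) * (((res (PP K₁) ×ˢ res (PP K₁)).filter Q).card : ℝ) ≤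
        (2 * X / PP K₁) * (2 * Y / PP K₁) * (η / 8 * (PP K₁ * PP K₁)) := by gcongr
    refine h5.trans (le_of_eq ?_)
    field_simp
    ring
  have h3 := markov (Ico M (M + X) ×ˢ Ico N (N + Y)) (fun k (D : ℤ × ℤ) => (pr k : ℤ) ∣ 2 * (4 * D.1 ^ 3 + 27 * D.2 ^ 2))
    ((X : ℝ) * Y) 12 C lam K₁ (hC K₁) hlam0 (by norm_num) (by positivity) (by
      intro k hk
      have h4 : pr k ≤ PP K₁ := Nat.le_of_dvd hP (dvd_PP hk)
      exact card_bad k M N X Y (h4.trans hX) (h4.trans hY))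
  have h4 : 12 * C * ((X : ℝ) * Y) / lam = η / 2 * (X * Y) := by
    rw [hlam]; field_simp; ring
  rw [h4] at h3
  have h5 : (Ico M (M + X) ×ˢ Ico N (N + Y)).filter
      (fun D : ℤ × ℤ => ¬ ∃ K : ℕ, K₀ ≤ K ∧ K ≤ K₁ ∧ Large D.1 D.2 K) ⊆
      (Ico M (M + X) ×ˢ Ico N (N + Y)).filter Q ∪ (Ico M (M + X) ×ˢ Ico N (N + Y)).filter (fun D : ℤ × ℤ => ∃ K : ℕ, K ≤ K₁ ∧
        lam * (K : ℝ) ^ (1 / 4 : ℝ) < ((range K).filter (fun k => (pr k : ℤ) ∣ 2 * (4 * D.1 ^ 3 + 27 * D.2 ^ 2))).card) := by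
    intro D hD
    have hD' := mem_filter.1 hD
    by_contra hcon
    rw [mem_union, not_or] at hcon
    have c1 : ¬ Q D := fun h => hcon.1 (mem_filter.2 ⟨hD'.1, h⟩)
    have c2 : ¬ ∃ K : ℕ, K ≤ K₁ ∧ lam * (K : ℝ) ^ (1 / 4 : ℝ) <
        ((range K).filter (fun k => (pr k : ℤ) ∣ 2 * (4 * D.1 ^ 3 + 27 * D.2 ^ 2))).card :=
      fun h => hcon.2 (mem_filter.2 ⟨hD'.1, h⟩)
    simp only [hQ] at c1
    push Not at c1 c2
    obtain ⟨K, k1, k2, k3, k4⟩ := c1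
    apply hD'.2
    refine ⟨K, ((le_max_left _ _).trans (le_max_left _ _)).trans k2, k3, finish _ _ K k1 k4 ?_⟩
    have h6 := hK₂ K (((le_max_right _ _).trans (le_max_left _ _)).trans k2)
    have h7 := c2 K k3
    have h8 : (bad D.1 D.2 K : ℝ) = ((range K).filter (fun k => (pr k : ℤ) ∣ 2 * (4 * D.1 ^ 3 + 27 * D.2 ^ 2))).card := rfl
    rw [h8]
    linarith
  have h6 := (card_le_card h5).trans (card_union_le _ _)
  have h7 : (((Ico M (M + X) ×ˢ Ico N (N + Y)).filter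
      (fun D : ℤ × ℤ => ¬ ∃ K : ℕ, K₀ ≤ K ∧ K ≤ K₁ ∧ Large D.1 D.2 K)).card : ℝ) ≤
      ((Ico M (M + X) ×ˢ Ico N (N + Y)).filter Q).card + ((Ico M (M + X) ×ˢ Ico N (N + Y)).filter (fun D : ℤ × ℤ => ∃ K : ℕ, K ≤ K₁ ∧
        lam * (K : ℝ) ^ (1 / 4 : ℝ) < ((range K).filter (fun k => (pr k : ℤ) ∣ 2 * (4 * D.1 ^ 3 + 27 * D.2 ^ 2))).card)).card := by
    exact_mod_cast h6
  linarith

end

end Pool.Agent.J4.H33.LIL
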